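import Pool.Agent.V1172.HR.Ext

/-!
Hermitian rank from the ranks of restrictions to complex lines.
-/

set_option autoImplicit false

open Set Filter Topology Metric

namespace Pool.Agent.V1172.HR

theorem indep_transfer {n d : ℕ} {ρ : ℝ} (A A' : Fin d → (Fin n → ℂ) → ℂ)
    (hA' : ∀ j, DifferentiableOn ℂ (A' j) (ball 0 ρ))
    (hAA' : ∀ j, ∀ᶠ z in 𝓝 0, A' j z = A j z)
    (ind : ∀ c : Fin d → ℂ, (∀ᶠ z in 𝓝 0, ∑ j, c j * A j z = 0) → c = 0)
    {a : Fin n → ℂ} (ha : a ∈ ball (0 : Fin n → ℂ) ρ) (c : Fin d → ℂ)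
    (hc : ∀ᶠ z in 𝓝 a, ∑ j, c j * A' j z = 0) : c = 0 := by
  have hρ : 0 < ρ := (norm_nonneg a).trans_lt (mem_ball_zero_iff.1 ha)
  apply ind
  have h1 := convex_identity isOpen_ball (convex_ball (0 : Fin n → ℂ) ρ)
    (fun z => ∑ j, c j * A' j z) (fun _ => 0) (by
      refine DifferentiableOn.fun_sum fun j _ => ?_
      exact (hA' j).const_mul _) (differentiableOn_const _) ha hc
  have hnb : ball (0 : Fin n → ℂ) ρ ∈ 𝓝 0 := ball_mem_nhds 0 hρ
  filter_upwards [hnb, eventually_all.2 hAA'] with z hz hz2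
  rw [← h1 z hz]
  exact Finset.sum_congr rfl fun j _ => by rw [hz2 j]

theorem extend {n d : ℕ} (p : (Fin n → ℂ) → ℝ) (hp : AnalyticOnNhd ℝ p univ) {R0 : ℝ}
    (hR0 : 0 < R0) (A C : Fin d → (Fin n → ℂ) → ℂ)
    (hA : ∀ j, DifferentiableOn ℂ (A j) (ball 0 R0))
    (hC : ∀ j, DifferentiableOn ℂ (C j) (ball 0 R0))
    (h0 : ∀ z ∈ ball (0 : Fin n → ℂ) R0, (p z : ℂ) = ∑ j, A j z * star (C j z))
    (indA : ∀ c : Fin d → ℂ, (∀ᶠ z in 𝓝 0, ∑ j, c j * A j z = 0) → c = 0)
    (indC : ∀ c : Fin d → ℂ, (∀ᶠ z in 𝓝 0, ∑ j, c j * C j z = 0) → c = 0) (R : ℝ) (hR : 0 < R) :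
    ∃ A' C' : Fin d → (Fin n → ℂ) → ℂ, (∀ j, DifferentiableOn ℂ (A' j) (ball 0 R)) ∧
      (∀ j, DifferentiableOn ℂ (C' j) (ball 0 R)) ∧ (∀ j, ∀ᶠ z in 𝓝 0, A' j z = A j z) ∧
      (∀ j, ∀ᶠ z in 𝓝 0, C' j z = C j z) := by
  -- a uniform radius of complexification
  obtain ⟨δ, hδ, hcx⟩ : ∃ δ > 0, ∀ a ∈ closedBall (0 : Fin n → ℂ) R,
      ∃ P : (Fin n → ℂ) → (Fin n → ℂ) → ℂ,
        DifferentiableOn ℂ (Function.uncurry P) (ball a δ ×ˢ ball (star a) δ) ∧
        ∀ z ∈ ball a δ, P z (star z) = p z := by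
    have h1 := fun a : Fin n → ℂ => complexify p a (hp a (mem_univ _))
    choose δ hδ P hP hPp using h1
    obtain ⟨ε, hε, h2⟩ := lebesgue_number_lemma_of_metric
      (isCompact_closedBall (0 : Fin n → ℂ) R) (c := fun a => ball a (δ a))
      (fun _ => isOpen_ball) (fun a _ => mem_iUnion.2 ⟨a, mem_ball_self (hδ a)⟩)
    refine ⟨ε, hε, fun a ha => ?_⟩
    obtain ⟨b, hb⟩ := h2 a ha
    refine ⟨P b, (hP b).mono (prod_mono hb ?_), fun z hz => hPp b z (hb hz)⟩
    intro z hz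
    have h3 : star z ∈ ball a ε := by
      rw [mem_ball, ← dist_star_star, star_star]; exact hz
    have h4 := hb h3
    rw [mem_ball, ← dist_star_star, star_star] at h4
    exact h4
  let S : ℝ → Prop := fun ρ => ∃ A' C' : Fin d → (Fin n → ℂ) → ℂ,
      (∀ j, DifferentiableOn ℂ (A' j) (ball 0 ρ)) ∧
      (∀ j, DifferentiableOn ℂ (C' j) (ball 0 ρ)) ∧ (∀ j, ∀ᶠ z in 𝓝 0, A' j z = A j z) ∧
      (∀ j, ∀ᶠ z in 𝓝 0, C' j z = C j z)
  have hSmono : ∀ ρ ρ' : ℝ, ρ' ≤ ρ → S ρ → S ρ' := by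
    rintro ρ ρ' hle ⟨A', C', h1, h2, h3, h4⟩
    exact ⟨A', C', fun j => (h1 j).mono (ball_subset_ball hle),
      fun j => (h2 j).mono (ball_subset_ball hle), h3, h4⟩
  have hstep : ∀ ρ : ℝ, 0 < ρ → ρ ≤ R → S ρ → S (ρ + δ / 4) := by
    rintro ρ hρ hρR ⟨A', C', h1, h2, h3, h4⟩
    have hloc : ∀ᶠ z in 𝓝 (0 : Fin n → ℂ), (p z : ℂ) = ∑ j, A' j z * star (C' j z) := by
      have hnb : ball (0 : Fin n → ℂ) R0 ∈ 𝓝 0 := ball_mem_nhds 0 hR0
      filter_upwards [hnb, eventually_all.2 h3, eventually_all.2 h4] with z hz hz3 hz4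
      rw [h0 z hz]
      exact Finset.sum_congr rfl fun j _ => by rw [hz3 j, hz4 j]
    have hid := real_identity p hp A' C' h1 h2 hloc
    have hid' : ∀ z ∈ ball (0 : Fin n → ℂ) ρ, (p z : ℂ) = ∑ j, C' j z * star (A' j z) := by
      intro z hz
      have h5 := congrArg star (hid z hz)
      rw [star_sum] at h5
      have h6 : star ((p z : ℝ) : ℂ) = (p z : ℂ) := Complex.conj_ofReal _
      rw [h6] at h5
      rw [h5]
      refine Finset.sum_congr rfl fun j _ => ?_
      rw [star_mul, star_star]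
    have hpatch : ∀ a ∈ ball (0 : Fin n → ℂ) ρ,
        (∃ G : Fin d → (Fin n → ℂ) → ℂ, (∀ j, DifferentiableOn ℂ (G j) (ball a δ)) ∧
          ∀ j, ∀ᶠ z in 𝓝 a, G j z = A' j z) ∧
        (∃ G : Fin d → (Fin n → ℂ) → ℂ, (∀ j, DifferentiableOn ℂ (G j) (ball a δ)) ∧
          ∀ j, ∀ᶠ z in 𝓝 a, G j z = C' j z) := by
      intro a ha
      have ha' := mem_ball_zero_iff.1 ha
      obtain ⟨P, hP, hPp⟩ := hcx a (by
        rw [mem_closedBall_zero_iff]; linarith)
      have hη : 0 < ρ - ‖a‖ := by linarith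
      have hsub : ball a (ρ - ‖a‖) ⊆ ball (0 : Fin n → ℂ) ρ := by
        intro z hz
        rw [mem_ball_iff_norm] at hz
        rw [mem_ball_zero_iff]
        have : z = (z - a) + a := by abel
        rw [this]
        exact (norm_add_le _ _).trans_lt (by linarith)
      constructor
      · exact patch a hη hδ p A' C' (fun j => (h1 j).mono hsub) (fun j => (h2 j).mono hsub)
          (fun z hz => hid z (hsub hz)) P hP hPp
          (fun c hc => indep_transfer C C' h2 h4 indC ha c hc)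
      · exact patch a hη hδ p C' A' (fun j => (h2 j).mono hsub) (fun j => (h1 j).mono hsub)
          (fun z hz => hid' z (hsub hz)) P hP hPp
          (fun c hc => indep_transfer A A' h1 h3 indA ha c hc)
    have hgA : ∀ j, ∃ F' : (Fin n → ℂ) → ℂ, DifferentiableOn ℂ F' (ball 0 (ρ + δ / 4)) ∧
        ∀ᶠ z in 𝓝 0, F' z = A' j z := by
      intro j
      refine glue hρ hδ (A' j) (h1 j) fun a ha => ?_
      obtain ⟨G, hG1, hG2⟩ := (hpatch a ha).1
      exact ⟨G j, hG1 j, hG2 j⟩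
    have hgC : ∀ j, ∃ F' : (Fin n → ℂ) → ℂ, DifferentiableOn ℂ F' (ball 0 (ρ + δ / 4)) ∧
        ∀ᶠ z in 𝓝 0, F' z = C' j z := by
      intro j
      refine glue hρ hδ (C' j) (h2 j) fun a ha => ?_
      obtain ⟨G, hG1, hG2⟩ := (hpatch a ha).2
      exact ⟨G j, hG1 j, hG2 j⟩
    choose A2 hA2 hA2' using hgA
    choose C2 hC2 hC2' using hgC
    refine ⟨A2, C2, hA2, hC2, fun j => ?_, fun j => ?_⟩
    · filter_upwards [hA2' j, h3 j] with z h5 h6
      rw [h5, h6]
    · filter_upwards [hC2' j, h4 j] with z h5 h6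
      rw [h5, h6]
  have hS0 : S R0 := ⟨A, C, hA, hC, fun j => Eventually.of_forall fun _ => rfl,
    fun j => Eventually.of_forall fun _ => rfl⟩
  have hind : ∀ m : ℕ, S (min (R0 + m * (δ / 4)) R) := by
    intro m
    induction m with
    | zero => exact hSmono _ _ ((min_le_left _ _).trans (by simp)) hS0
    | succ m ih =>
      have hpos : 0 < min (R0 + m * (δ / 4)) R := lt_min (by positivity) hR
      have := hstep _ hpos (min_le_right _ _) ih
      refine hSmono _ _ ?_ this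
      push_cast
      rcases le_total (R0 + m * (δ / 4)) R with h | h
      · rw [min_eq_left h]
        refine (min_le_left _ _).trans ?_
        linarith
      · rw [min_eq_right h]
        refine (min_le_right _ _).trans ?_
        linarith
  obtain ⟨m, hm⟩ := exists_nat_ge (R / (δ / 4))
  have hm2 : R ≤ R0 + m * (δ / 4) := by
    rw [div_le_iff₀ (by linarith)] at hm
    linarith
  have := hind m
  rw [min_eq_right hm2] at this
  exact this

theorem entire_ext {n : ℕ} (F : (Fin n → ℂ) → ℂ)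
    (h : ∀ R : ℝ, 0 < R → ∃ F' : (Fin n → ℂ) → ℂ, DifferentiableOn ℂ F' (ball 0 R) ∧
      ∀ᶠ z in 𝓝 0, F' z = F z) :
    ∃ F' : (Fin n → ℂ) → ℂ, Differentiable ℂ F' ∧ ∀ᶠ z in 𝓝 0, F' z = F z := by
  have h' := fun m : ℕ => h ((m : ℝ) + 1) (by positivity)
  choose G hG1 hG2 using h'
  have key : ∀ m m' : ℕ, ∀ z : Fin n → ℂ, ‖z‖ < (m : ℝ) + 1 → ‖z‖ < (m' : ℝ) + 1 →
      G m z = G m' z := by
    intro m m' z hz hz'
    have hsub1 : ball (0 : Fin n → ℂ) (min ((m : ℝ) + 1) ((m' : ℝ) + 1)) ⊆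
        ball 0 ((m : ℝ) + 1) := ball_subset_ball (min_le_left _ _)
    have hsub2 : ball (0 : Fin n → ℂ) (min ((m : ℝ) + 1) ((m' : ℝ) + 1)) ⊆
        ball 0 ((m' : ℝ) + 1) := ball_subset_ball (min_le_right _ _)
    refine convex_identity isOpen_ball
      (convex_ball (0 : Fin n → ℂ) (min ((m : ℝ) + 1) ((m' : ℝ) + 1))) (G m) (G m')
      ((hG1 m).mono hsub1) ((hG1 m').mono hsub2) (a := 0)
      (mem_ball_self (lt_min (by positivity) (by positivity))) ?_ z
      (mem_ball_zero_iff.2 (lt_min hz hz'))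
    filter_upwards [hG2 m, hG2 m'] with w h1 h2
    rw [h1, h2]
  have hloc : ∀ z0 : Fin n → ℂ, ∀ᶠ z in 𝓝 z0, G ⌈‖z‖⌉₊ z = G ⌈‖z0‖⌉₊ z := by
    intro z0
    have h1 : ‖z0‖ < (⌈‖z0‖⌉₊ : ℝ) + 1 := (Nat.le_ceil _).trans_lt (by linarith)
    have h2 : ∀ᶠ z in 𝓝 z0, ‖z‖ < (⌈‖z0‖⌉₊ : ℝ) + 1 :=
      (continuous_norm.continuousAt (x := z0)).eventually_lt continuousAt_const h1
    filter_upwards [h2] with z hz
    exact key _ _ z ((Nat.le_ceil _).trans_lt (by linarith)) hz
  refine ⟨fun z => G ⌈‖z‖⌉₊ z, fun z0 => ?_, ?_⟩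
  · have h1 : z0 ∈ ball (0 : Fin n → ℂ) ((⌈‖z0‖⌉₊ : ℝ) + 1) :=
      mem_ball_zero_iff.2 ((Nat.le_ceil _).trans_lt (by linarith))
    have h2 : DifferentiableAt ℂ (G ⌈‖z0‖⌉₊) z0 :=
      (hG1 _ _ h1).differentiableAt (isOpen_ball.mem_nhds h1)
    exact h2.congr_of_eventuallyEq (hloc z0)
  · filter_upwards [hloc 0, hG2 ⌈‖(0 : Fin n → ℂ)‖⌉₊] with z h1 h2
    rw [h1, h2]

/-- The main theorem, from ranks on complex lines. -/
theorem main_lines {n : ℕ} (k : ℕ) (p : (Fin n → ℂ) → ℝ) (hp : AnalyticOnNhd ℝ p univ)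
    (hyp : ∀ u b : Fin n → ℂ, ∃ (ε : Fin k → ℝ) (g : Fin k → ℂ → ℂ),
      (∀ j, Differentiable ℂ (g j)) ∧
        ∀ s : ℂ, p (u + s • b) = ∑ j, ε j * Complex.normSq (g j s)) :
    ∃ d ≤ (k ^ n) ^ n, ∃ A C : Fin d → (Fin n → ℂ) → ℂ, (∀ j, Differentiable ℂ (A j)) ∧
      (∀ j, Differentiable ℂ (C j)) ∧ ∀ z, (p z : ℂ) = ∑ j, A j z * star (C j z) := by
  obtain ⟨δ, hδ, P, hP, hPp⟩ := complexify p 0 (hp 0 (mem_univ _))
  rw [star_zero] at hP
  obtain ⟨R, hRdef⟩ : ∃ R : ℝ, R = δ / 16 := ⟨_, rfl⟩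
  have hR : 0 < R := by rw [hRdef]; linarith
  have hRδ : R < δ / 8 := by rw [hRdef]; linarith
  have hsub : ball (0 : Fin n → ℂ) R ⊆ ball 0 δ := ball_subset_ball (by linarith)
  have hFR : FR (fun (x : ball (0 : Fin n → ℂ) R) (y : ball (0 : Fin n → ℂ) R) => P x y)
      ((k ^ n) ^ n) := by
    refine total_rank hR k P (hP.mono (prod_mono hsub hsub)) ?_
    intro i i' x y hx hy s t
    have hxn := mem_ball_zero_iff.1 hx
    have hyn := mem_ball_zero_iff.1 hy
    have hupd : ∀ (x : Fin n → ℂ) (i : Fin n) (z : ℂ), Function.update x i z =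
        Function.update x i 0 + (z / R) • (Pi.single i (R : ℂ) : Fin n → ℂ) := by
      intro x i z
      ext j
      by_cases hj : j = i
      · subst hj
        have : (R : ℂ) ≠ 0 := by exact_mod_cast hR.ne'
        simp [this]
      · simp [hj]
    have hnu : ∀ (x : Fin n → ℂ) (i : Fin n), ‖x‖ < R → ‖Function.update x i 0‖ < R := by
      intro x i hx
      rw [pi_norm_lt_iff hR] at hx ⊢
      intro j
      by_cases hj : j = i
      · subst hj; simpa using hR
      · rw [Function.update_of_ne hj]; exact hx j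
    have hns : ∀ i : Fin n, ‖(Pi.single i (R : ℂ) : Fin n → ℂ)‖ = R := by
      intro i
      rw [Pi.norm_single, Complex.norm_real, Real.norm_eq_abs, abs_of_pos hR]
    have hnd : ∀ z : ball (0 : ℂ) R, ‖(z : ℂ) / R‖ < 1 := by
      intro z
      rw [norm_div, Complex.norm_real, Real.norm_eq_abs, abs_of_pos hR, div_lt_one hR]
      exact mem_ball_zero_iff.1 z.2
    have h1 := line_rank p P hP hPp hyp (fun i => (s i : ℂ) / R) (fun j => (t j : ℂ) / R)
      (fun i => hnd _) (fun j => hnd _) (Function.update x i 0) (Pi.single i (R : ℂ))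
      (Function.update y i' 0) (Pi.single i' (R : ℂ)) ((hnu x i hxn).trans hRδ)
      (by rw [hns]; exact hRδ) ((hnu y i' hyn).trans hRδ) (by rw [hns]; exact hRδ)
    simp only [← hupd] at h1
    exact h1
  obtain ⟨d, hd, hmn, a, b, hdet⟩ := max_minor hFR.mn
  have hbor := bordered _ a b hdet hmn
  set M : Matrix (Fin d) (Fin d) ℂ := Matrix.of fun i j => P (a i) (b j) with hM
  have hMu : IsUnit M.det := isUnit_iff_ne_zero.2 hdet
  let A : Fin d → (Fin n → ℂ) → ℂ := fun j z => P z (b j)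
  let C : Fin d → (Fin n → ℂ) → ℂ := fun j z => star (∑ i, M⁻¹ j i * P (a i) (star z))
  have hopen : IsOpen (ball (0 : Fin n → ℂ) δ ×ˢ ball (0 : Fin n → ℂ) δ) :=
    isOpen_ball.prod isOpen_ball
  have hA : ∀ j, DifferentiableOn ℂ (A j) (ball 0 R) := by
    intro j z hz
    have hm : (z, (b j : Fin n → ℂ)) ∈ ball (0 : Fin n → ℂ) δ ×ˢ ball (0 : Fin n → ℂ) δ :=
      ⟨hsub hz, hsub (b j).2⟩
    have h1 : DifferentiableAt ℂ (Function.uncurry P) (z, (b j : Fin n → ℂ)) :=
      (hP _ hm).differentiableAt (hopen.mem_nhds hm)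
    have h2 : DifferentiableAt ℂ (fun z : Fin n → ℂ => (z, (b j : Fin n → ℂ))) z := by
      fun_prop
    exact (h1.comp z h2).differentiableWithinAt
  have hC : ∀ j, DifferentiableOn ℂ (C j) (ball 0 R) := by
    intro j
    refine star_diff (U := ball 0 R) (V := ball 0 R) (fun z => ∑ i, M⁻¹ j i * P (a i) z)
      isOpen_ball ?_ ?_
    · refine DifferentiableOn.fun_sum fun i _ => ?_
      refine DifferentiableOn.const_mul ?_ _
      intro z hz
      have hm : ((a i : Fin n → ℂ), z) ∈ ball (0 : Fin n → ℂ) δ ×ˢ ball (0 : Fin n → ℂ) δ :=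
        ⟨hsub (a i).2, hsub hz⟩
      have h1 : DifferentiableAt ℂ (Function.uncurry P) ((a i : Fin n → ℂ), z) :=
        (hP _ hm).differentiableAt (hopen.mem_nhds hm)
      have h2 : DifferentiableAt ℂ (fun z : Fin n → ℂ => ((a i : Fin n → ℂ), z)) z := by
        fun_prop
      exact (h1.comp z h2).differentiableWithinAt
    · intro z hz
      rw [mem_ball_zero_iff, norm_star]
      exact mem_ball_zero_iff.1 hz
  have hAC : ∀ z ∈ ball (0 : Fin n → ℂ) R, (p z : ℂ) = ∑ j, A j z * star (C j z) := by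
    intro z hz
    have hz' : star z ∈ ball (0 : Fin n → ℂ) R := by
      rw [mem_ball_zero_iff, norm_star]
      exact mem_ball_zero_iff.1 hz
    have h1 := hbor ⟨z, hz⟩ ⟨star z, hz'⟩
    rw [← hPp z (hsub hz)]
    refine h1.trans ?_
    refine Finset.sum_congr rfl fun j _ => ?_
    simp only [A, C, star_star]
  have hnb : ball (0 : Fin n → ℂ) R ∈ 𝓝 0 := ball_mem_nhds 0 hR
  have indA : ∀ c : Fin d → ℂ, (∀ᶠ z in 𝓝 0, ∑ j, c j * A j z = 0) → c = 0 := by
    intro c hc
    have h1 := convex_identity isOpen_ball (convex_ball (0 : Fin n → ℂ) R)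
      (fun z => ∑ j, c j * A j z) (fun _ => 0) (by
        refine DifferentiableOn.fun_sum fun j _ => ?_
        exact (hA j).const_mul _) (differentiableOn_const _) (mem_ball_self hR) hc
    by_contra hne
    apply hdet
    refine Matrix.exists_mulVec_eq_zero_iff.1 ⟨c, hne, ?_⟩
    ext i
    have h2 := h1 (a i) (a i).2
    simp only [Matrix.mulVec, dotProduct, Pi.zero_apply]
    rw [← h2]
    refine Finset.sum_congr rfl fun j _ => ?_
    rw [mul_comm]
    rfl
  have indC : ∀ c : Fin d → ℂ, (∀ᶠ z in 𝓝 0, ∑ j, c j * C j z = 0) → c = 0 := by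
    intro c hc
    have h1 := convex_identity isOpen_ball (convex_ball (0 : Fin n → ℂ) R)
      (fun z => ∑ j, c j * C j z) (fun _ => 0) (by
        refine DifferentiableOn.fun_sum fun j _ => ?_
        exact (hC j).const_mul _) (differentiableOn_const _) (mem_ball_self hR) hc
    ext l
    have hbl : star (b l : Fin n → ℂ) ∈ ball (0 : Fin n → ℂ) R := by
      rw [mem_ball_zero_iff, norm_star]
      exact mem_ball_zero_iff.1 (b l).2
    have h2 := h1 _ hbl
    have h3 : ∀ j, C j (star (b l : Fin n → ℂ)) = if j = l then 1 else 0 := by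
      intro j
      have h4 : (∑ i, M⁻¹ j i * P (a i) (b l)) = (M⁻¹ * M) j l := by
        rw [Matrix.mul_apply]
        rfl
      simp only [C, star_star]
      rw [h4, Matrix.nonsing_inv_mul M hMu, Matrix.one_apply]
      split_ifs <;> simp
    simp only [h3] at h2
    simpa using h2
  -- the extension
  have hext := fun R' hR' => extend p hp hR A C hA hC hAC indA indC R' hR'
  have hA' : ∀ j, ∃ F' : (Fin n → ℂ) → ℂ, Differentiable ℂ F' ∧ ∀ᶠ z in 𝓝 0, F' z = A j z := by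
    intro j
    refine entire_ext (A j) fun R' hR' => ?_
    obtain ⟨A', C', h1, h2, h3, h4⟩ := hext R' hR'
    exact ⟨A' j, h1 j, h3 j⟩
  have hC' : ∀ j, ∃ F' : (Fin n → ℂ) → ℂ, Differentiable ℂ F' ∧ ∀ᶠ z in 𝓝 0, F' z = C j z := by
    intro j
    refine entire_ext (C j) fun R' hR' => ?_
    obtain ⟨A', C', h1, h2, h3, h4⟩ := hext R' hR'
    exact ⟨C' j, h2 j, h4 j⟩
  choose A2 hA2 hA2' using hA'
  choose C2 hC2 hC2' using hC'
  refine ⟨d, hd, A2, C2, hA2, hC2, fun z => ?_⟩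
  refine real_identity (R := ‖z‖ + 1) p hp A2 C2 (fun j => (hA2 j).differentiableOn)
    (fun j => (hC2 j).differentiableOn) ?_ z (by rw [mem_ball_zero_iff]; linarith)
  filter_upwards [hnb, eventually_all.2 hA2', eventually_all.2 hC2'] with w hw h1 h2
  rw [hAC w hw]
  exact Finset.sum_congr rfl fun j _ => by rw [h1 j, h2 j]

/-- Squares from products. -/
theorem squares {n d N : ℕ} (hd : d ≤ N) (p : (Fin n → ℂ) → ℝ) (A C : Fin d → (Fin n → ℂ) → ℂ)
    (hA : ∀ j, Differentiable ℂ (A j)) (hC : ∀ j, Differentiable ℂ (C j))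
    (h : ∀ z, (p z : ℂ) = ∑ j, A j z * star (C j z)) :
    ∃ (ε : Fin (N + N) → ℝ) (f : Fin (N + N) → (Fin n → ℂ) → ℂ),
      (∀ j, ε j = 1 ∨ ε j = -1) ∧ (∀ j, Differentiable ℂ (f j)) ∧
        ∀ z, p z = ∑ j, ε j * Complex.normSq (f j z) := by
  obtain ⟨c, rfl⟩ := Nat.exists_eq_add_of_le hd
  let A' : Fin (d + c) → (Fin n → ℂ) → ℂ := Fin.append A (fun _ _ => 0)
  let C' : Fin (d + c) → (Fin n → ℂ) → ℂ := Fin.append C (fun _ _ => 0)
  have hA' : ∀ j, Differentiable ℂ (A' j) := by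
    intro j
    refine Fin.addCases (fun i => ?_) (fun i => ?_) j
    · simp only [A', Fin.append_left]; exact hA i
    · simp only [A', Fin.append_right]; exact differentiable_const _
  have hC' : ∀ j, Differentiable ℂ (C' j) := by
    intro j
    refine Fin.addCases (fun i => ?_) (fun i => ?_) j
    · simp only [C', Fin.append_left]; exact hC i
    · simp only [C', Fin.append_right]; exact differentiable_const _
  have h' : ∀ z, (p z : ℂ) = ∑ j, A' j z * star (C' j z) := by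
    intro z
    rw [h z, Fin.sum_univ_add]
    simp [A', C']
  refine ⟨Fin.append (fun _ => 1) (fun _ => -1),
    Fin.append (fun j z => (1 / 2 : ℂ) * (A' j z + C' j z))
      (fun j z => (1 / 2 : ℂ) * (A' j z - C' j z)), ?_, ?_, ?_⟩
  · intro j
    refine Fin.addCases (fun i => ?_) (fun i => ?_) j
    · left; simp only [Fin.append_left]
    · right; simp only [Fin.append_right]
  · intro j
    refine Fin.addCases (fun i => ?_) (fun i => ?_) j
    · simp only [Fin.append_left]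
      exact ((hA' i).add (hC' i)).const_mul _
    · simp only [Fin.append_right]
      exact ((hA' i).sub (hC' i)).const_mul _
  · intro z
    rw [Fin.sum_univ_add]
    simp only [Fin.append_left, Fin.append_right]
    rw [← Finset.sum_add_distrib]
    have h1 : p z = ∑ j, (A' j z * star (C' j z)).re := by
      have := congrArg Complex.re (h' z)
      rw [Complex.ofReal_re, Complex.re_sum] at this
      exact this
    rw [h1]
    refine Finset.sum_congr rfl fun j _ => ?_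
    have h2 : star (C' j z) = (starRingEnd ℂ) (C' j z) := rfl
    rw [h2]
    simp only [Complex.normSq_apply, Complex.mul_re, Complex.mul_im, Complex.add_re,
      Complex.add_im, Complex.sub_re, Complex.sub_im, Complex.conj_re, Complex.conj_im]
    norm_num
    ring

end Pool.Agent.V1172.HR
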