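import Mathlib

/-!
Identity principles: a holomorphic function on a product of balls vanishing on the conjugate
diagonal vanishes near the centre; holomorphic functions on convex open sets.
-/

set_option autoImplicit false

open Set Filter Topology Metric

namespace Pool.Agent.V1172.HR

/-- One-dimensional identity theorem: vanishing on the real points of a disc. -/
theorem one_dim_real {R : ℝ} (f : ℂ → ℂ) (hf : DifferentiableOn ℂ f (ball 0 R))
    (h : ∀ t : ℝ, |t| < R → f t = 0) : ∀ z ∈ ball (0 : ℂ) R, f z = 0 := by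
  intro z hz
  have hR : 0 < R := by
    have := mem_ball_zero_iff.1 hz
    exact (norm_nonneg z).trans_lt this
  have han : AnalyticOnNhd ℂ f (ball 0 R) := hf.analyticOnNhd isOpen_ball
  have hfreq : ∃ᶠ w in 𝓝[≠] (0 : ℂ), f w = 0 := by
    rw [Filter.frequently_iff]
    intro U hU
    rw [mem_nhdsWithin] at hU
    obtain ⟨V, hV, h0V, hVU⟩ := hU
    obtain ⟨ε, hε, hεV⟩ := Metric.isOpen_iff.1 hV 0 h0V
    let t : ℝ := min (ε / 2) (R / 2)
    have ht : 0 < t := lt_min (by linarith) (by linarith)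
    have ht1 : t < ε := (min_le_left _ _).trans_lt (by linarith)
    have ht2 : t < R := (min_le_right _ _).trans_lt (by linarith)
    refine ⟨(t : ℂ), hVU ⟨hεV ?_, ?_⟩, h t ?_⟩
    · rw [mem_ball_zero_iff, Complex.norm_real, Real.norm_eq_abs, abs_of_pos ht]
      exact ht1
    · simpa using ht.ne'
    · rw [abs_of_pos ht]
      exact ht2
  exact han.eqOn_zero_of_preconnected_of_frequently_eq_zero
    (convex_ball (0 : ℂ) R).isPreconnected (mem_ball_self hR) hfreq hz

variable {X : Type*} [NormedAddCommGroup X] [NormedSpace ℂ X]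

section star

variable [StarAddMonoid X] [NormedStarGroup X] [StarModule ℂ X]

/-- Vanishing on the conjugate diagonal. -/
theorem conj_diag_zero {r : ℝ} (Φ : X × X → ℂ)
    (hΦ : DifferentiableOn ℂ Φ (ball 0 r ×ˢ ball 0 r))
    (h : ∀ z ∈ ball (0 : X) r, Φ (z, star z) = 0) :
    ∀ z ∈ ball (0 : X) (r / 2), ∀ w ∈ ball (0 : X) (r / 2), Φ (z, w) = 0 := by
  intro z hz w hw
  rw [mem_ball_zero_iff] at hz hw
  obtain ⟨x, hxdef⟩ : ∃ x : X, x = (1 / 2 : ℂ) • (z + star w) := ⟨_, rfl⟩
  obtain ⟨y, hydef⟩ : ∃ y : X, y = (-Complex.I / 2) • (z - star w) := ⟨_, rfl⟩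
  have hxn : ‖x‖ ≤ (‖z‖ + ‖w‖) / 2 := by
    rw [hxdef, norm_smul]
    have := norm_add_le z (star w)
    rw [norm_star] at this
    have h2 : ‖(1 / 2 : ℂ)‖ = 1 / 2 := by simp
    rw [h2]; linarith
  have hyn : ‖y‖ ≤ (‖z‖ + ‖w‖) / 2 := by
    rw [hydef, norm_smul]
    have := norm_sub_le z (star w)
    rw [norm_star] at this
    have h2 : ‖(-Complex.I / 2 : ℂ)‖ = 1 / 2 := by simp
    rw [h2]; linarith
  have hsum : ‖x‖ + ‖y‖ < r := by linarith
  -- a slightly larger radius
  obtain ⟨ρ, hρ1, hρ⟩ : ∃ ρ : ℝ, 1 < ρ ∧ ρ * (‖x‖ + ‖y‖) < r := by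
    have hc : Continuous fun ρ : ℝ => ρ * (‖x‖ + ‖y‖) := by fun_prop
    have h1 : (fun ρ : ℝ => ρ * (‖x‖ + ‖y‖)) 1 < r := by simpa using hsum
    have := (hc.continuousAt (x := 1)).eventually_lt continuousAt_const h1
    obtain ⟨ε, hε, h3⟩ := Metric.eventually_nhds_iff.1 this
    refine ⟨1 + ε / 2, by linarith, h3 ?_⟩
    rw [Real.dist_eq]
    have : 1 + ε / 2 - 1 = ε / 2 := by ring
    rw [this, abs_of_pos (by linarith)]
    linarith
  let F : ℂ → ℂ → ℂ := fun σ τ => Φ (σ • x + τ • y, σ • star x + τ • star y)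
  have hmem : ∀ σ τ : ℂ, ‖σ‖ < ρ → ‖τ‖ < ρ →
      (σ • x + τ • y, σ • star x + τ • star y) ∈ ball (0 : X) r ×ˢ ball (0 : X) r := by
    intro σ τ hσ hτ
    have hb : ‖σ‖ * ‖x‖ + ‖τ‖ * ‖y‖ < r := by
      have h1 : ‖σ‖ * ‖x‖ ≤ ρ * ‖x‖ := mul_le_mul_of_nonneg_right hσ.le (norm_nonneg _)
      have h2 : ‖τ‖ * ‖y‖ ≤ ρ * ‖y‖ := mul_le_mul_of_nonneg_right hτ.le (norm_nonneg _)
      have : ρ * (‖x‖ + ‖y‖) = ρ * ‖x‖ + ρ * ‖y‖ := by ring
      linarith
    constructor
    · rw [mem_ball_zero_iff]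
      refine (norm_add_le _ _).trans_lt ?_
      rw [norm_smul, norm_smul]; exact hb
    · rw [mem_ball_zero_iff]
      refine (norm_add_le _ _).trans_lt ?_
      rw [norm_smul, norm_smul, norm_star, norm_star]; exact hb
  have hopen : IsOpen (ball (0 : X) r ×ˢ ball (0 : X) r) := isOpen_ball.prod isOpen_ball
  have hreal : ∀ s t : ℝ, |s| < ρ → |t| < ρ → F s t = 0 := by
    intro s t hs ht
    have hm := hmem (s : ℂ) (t : ℂ) (by simpa using hs) (by simpa using ht)
    have heq : (s : ℂ) • star x + (t : ℂ) • star y = star ((s : ℂ) • x + (t : ℂ) • y) := by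
      rw [star_add, star_smul, star_smul]
      simp
    show Φ ((s : ℂ) • x + (t : ℂ) • y, (s : ℂ) • star x + (t : ℂ) • star y) = 0
    rw [heq]
    exact h _ hm.1
  have hdσ : ∀ τ : ℂ, ‖τ‖ < ρ → DifferentiableOn ℂ (fun σ => F σ τ) (ball 0 ρ) := by
    intro τ hτ σ hσ
    rw [mem_ball_zero_iff] at hσ
    have h1 : DifferentiableAt ℂ Φ (σ • x + τ • y, σ • star x + τ • star y) :=
      (hΦ _ (hmem σ τ hσ hτ)).differentiableAt (hopen.mem_nhds (hmem σ τ hσ hτ))
    have h2 : DifferentiableAt ℂ (fun σ : ℂ => (σ • x + τ • y, σ • star x + τ • star y)) σ := by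
      fun_prop
    exact (h1.comp σ h2).differentiableWithinAt
  have hdτ : ∀ σ : ℂ, ‖σ‖ < ρ → DifferentiableOn ℂ (fun τ => F σ τ) (ball 0 ρ) := by
    intro σ hσ τ hτ
    rw [mem_ball_zero_iff] at hτ
    have h1 : DifferentiableAt ℂ Φ (σ • x + τ • y, σ • star x + τ • star y) :=
      (hΦ _ (hmem σ τ hσ hτ)).differentiableAt (hopen.mem_nhds (hmem σ τ hσ hτ))
    have h2 : DifferentiableAt ℂ (fun τ : ℂ => (σ • x + τ • y, σ • star x + τ • star y)) τ := by
      fun_prop
    exact (h1.comp τ h2).differentiableWithinAt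
  have hstep1 : ∀ t : ℝ, |t| < ρ → ∀ σ ∈ ball (0 : ℂ) ρ, F σ t = 0 := by
    intro t ht
    exact one_dim_real (fun σ => F σ t) (hdσ t (by simpa using ht))
      (fun s hs => hreal s t hs ht)
  have hstep2 : ∀ σ ∈ ball (0 : ℂ) ρ, ∀ τ ∈ ball (0 : ℂ) ρ, F σ τ = 0 := by
    intro σ hσ
    exact one_dim_real (fun τ => F σ τ) (hdτ σ (mem_ball_zero_iff.1 hσ))
      (fun t ht => hstep1 t ht σ hσ)
  have hfin := hstep2 1 (by simpa using hρ1) Complex.I (by simpa using hρ1)
  have e1 : (1 : ℂ) • x + Complex.I • y = z := by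
    rw [hxdef, hydef, one_smul, smul_smul]
    have : Complex.I * (-Complex.I / 2) = 1 / 2 := by
      rw [show Complex.I * (-Complex.I / 2) = -(Complex.I * Complex.I) / 2 by ring, Complex.I_mul_I]
      ring
    rw [this, ← smul_add]
    have : z + star w + (z - star w) = (2 : ℂ) • z := by
      rw [two_smul]; abel
    rw [this, smul_smul]; norm_num
  have e2 : (1 : ℂ) • star x + Complex.I • star y = w := by
    have hx : star x = (1 / 2 : ℂ) • (star z + w) := by
      rw [hxdef, star_smul, star_add, star_star]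
      simp
    have hy : star y = (Complex.I / 2) • (star z - w) := by
      rw [hydef, star_smul, star_sub, star_star]
      simp
    rw [hx, hy, one_smul, smul_smul]
    have : Complex.I * (Complex.I / 2) = -(1 / 2) := by
      rw [show Complex.I * (Complex.I / 2) = (Complex.I * Complex.I) / 2 by ring, Complex.I_mul_I]
      ring
    rw [this, neg_smul, ← sub_eq_add_neg, ← smul_sub]
    have : star z + w - (star z - w) = (2 : ℂ) • w := by
      rw [two_smul]; abel
    rw [this, smul_smul]; norm_num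
  have : F 1 Complex.I = Φ (z, w) := by
    show Φ ((1 : ℂ) • x + Complex.I • y, (1 : ℂ) • star x + Complex.I • star y) = _
    rw [e1, e2]
  rw [← this]; exact hfin

/-- Vanishing on the conjugate diagonal, general centre. -/
theorem conj_diag_zero' {r : ℝ} (a : X) (Φ : X × X → ℂ)
    (hΦ : DifferentiableOn ℂ Φ (ball a r ×ˢ ball (star a) r))
    (h : ∀ z ∈ ball a r, Φ (z, star z) = 0) :
    ∀ z ∈ ball a (r / 2), ∀ w ∈ ball (star a) (r / 2), Φ (z, w) = 0 := by
  intro z hz w hw
  let Ψ : X × X → ℂ := fun q => Φ (a + q.1, star a + q.2)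
  have hm : ∀ b c : X, c ∈ ball (0 : X) r → b + c ∈ ball b r := by
    intro b c hc
    rw [mem_ball_iff_norm]
    simpa using hc
  have hopen : IsOpen (ball a r ×ˢ ball (star a) r) := isOpen_ball.prod isOpen_ball
  have hΨ : DifferentiableOn ℂ Ψ (ball 0 r ×ˢ ball 0 r) := by
    intro q hq
    have hq' : (a + q.1, star a + q.2) ∈ ball a r ×ˢ ball (star a) r :=
      ⟨hm _ _ hq.1, hm _ _ hq.2⟩
    have h1 := (hΦ _ hq').differentiableAt (hopen.mem_nhds hq')
    have h2 : DifferentiableAt ℂ (fun q : X × X => (a + q.1, star a + q.2)) q := by fun_prop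
    exact (h1.comp q h2).differentiableWithinAt
  have h0 : ∀ z ∈ ball (0 : X) r, Ψ (z, star z) = 0 := by
    intro u hu
    show Φ (a + u, star a + star u) = 0
    rw [← star_add]
    exact h _ (hm _ _ hu)
  have := conj_diag_zero Ψ hΨ h0 (z - a) (by rw [mem_ball_zero_iff]; exact mem_ball_iff_norm.1 hz) (w - star a)
    (by rw [mem_ball_zero_iff]; exact mem_ball_iff_norm.1 hw)
  simpa [Ψ] using this

/-- `conj ∘ f ∘ conj` is holomorphic. -/
theorem star_diff {U V : Set X} (f : X → ℂ) (hU : IsOpen U)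
    (hf : DifferentiableOn ℂ f U) (hVU : ∀ z ∈ V, star z ∈ U) :
    DifferentiableOn ℂ (fun z => star (f (star z))) V := by
  intro z hz
  have h1 : DifferentiableAt ℂ f (star z) :=
    (hf _ (hVU z hz)).differentiableAt (hU.mem_nhds (hVU z hz))
  have h2 := h1.star_star
  rw [star_star] at h2
  exact h2.differentiableWithinAt

end star

/-- Identity theorem on convex open subsets. -/
theorem convex_identity {U : Set X} (hU : IsOpen U) (hc : Convex ℝ U) (f g : X → ℂ)
    (hf : DifferentiableOn ℂ f U) (hg : DifferentiableOn ℂ g U) {a : X} (ha : a ∈ U)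
    (h : ∀ᶠ z in 𝓝 a, f z = g z) : ∀ z ∈ U, f z = g z := by
  intro z hz
  let ℓ : ℂ → X := fun s => a + s • (z - a)
  have hℓ : Continuous ℓ := by fun_prop
  let V : Set ℂ := ℓ ⁻¹' U
  have hV : IsOpen V := hU.preimage hℓ
  have hVc : Convex ℝ V := by
    intro s hs t ht p q hp hq hpq
    show a + (p • s + q • t) • (z - a) ∈ U
    have : a + (p • s + q • t) • (z - a) = p • (a + s • (z - a)) + q • (a + t • (z - a)) := by
      rw [smul_add, smul_add, add_smul]
      have h1 : p • a + q • a = a := by rw [← add_smul, hpq, one_smul]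
      have h2 : (p • s) • (z - a) = p • s • (z - a) := smul_assoc _ _ _
      have h3 : (q • t) • (z - a) = q • t • (z - a) := smul_assoc _ _ _
      rw [h2, h3, add_add_add_comm (p • a), h1]
    rw [this]
    exact hc hs ht hp hq hpq
  have h0 : (0 : ℂ) ∈ V := by
    show a + (0 : ℂ) • (z - a) ∈ U
    simpa using ha
  have h1 : (1 : ℂ) ∈ V := by
    show a + (1 : ℂ) • (z - a) ∈ U
    simpa using hz
  have hd : ∀ φ : X → ℂ, DifferentiableOn ℂ φ U → AnalyticOnNhd ℂ (fun s => φ (ℓ s)) V := by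
    intro φ hφ
    refine DifferentiableOn.analyticOnNhd ?_ hV
    intro s hs
    have h1 : DifferentiableAt ℂ φ (ℓ s) := (hφ _ hs).differentiableAt (hU.mem_nhds hs)
    have h2 : DifferentiableAt ℂ ℓ s := by
      show DifferentiableAt ℂ (fun s : ℂ => a + s • (z - a)) s
      fun_prop
    exact (h1.comp s h2).differentiableWithinAt
  have hev : (fun s => f (ℓ s)) =ᶠ[𝓝 0] fun s => g (ℓ s) := by
    have : Tendsto ℓ (𝓝 0) (𝓝 a) := by
      have := hℓ.tendsto 0
      simpa [ℓ] using this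
    exact this.eventually h
  have := (hd f hf).eqOn_of_preconnected_of_eventuallyEq (hd g hg) hVc.isPreconnected h0 hev h1
  simpa [ℓ] using this

end Pool.Agent.V1172.HR
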