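import Pool.Agent.V1172.HR.Rank

/-!
From ranks on coordinate lines to total rank, and from ranks on the diagonal lines to ranks on pairs
of lines.
-/

set_option autoImplicit false

open Set Filter Topology Metric

namespace Pool.Agent.V1172.HR

theorem Mn.swap {σ τ : Type*} {F : σ → τ → ℂ} {m : ℕ} (h : Mn F m) : Mn (fun t s => F s t) m := by
  intro a b
  have := h b a
  rw [← Matrix.det_transpose] at this
  exact this

theorem FR.swap {σ τ : Type*} {F : σ → τ → ℂ} {m : ℕ} (h : FR F m) : FR (fun t s => F s t) m := by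
  obtain ⟨α, β, h⟩ := h
  refine ⟨β, α, fun t s => ?_⟩
  show F s t = _
  rw [h]
  exact Finset.sum_congr rfl fun l _ => mul_comm _ _

theorem cons_mem {n : ℕ} {R : ℝ} (hR : 0 < R) (x : ℂ) (s : Fin n → ℂ) :
    (Fin.cons x s : Fin (n + 1) → ℂ) ∈ ball (0 : Fin (n + 1) → ℂ) R ↔
      x ∈ ball (0 : ℂ) R ∧ s ∈ ball (0 : Fin n → ℂ) R := by
  rw [mem_ball_zero_iff, mem_ball_zero_iff, mem_ball_zero_iff, pi_norm_lt_iff hR,
    pi_norm_lt_iff hR]
  constructor
  · intro h
    exact ⟨by simpa using h 0, fun i => by simpa using h i.succ⟩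
  · rintro ⟨h1, h2⟩ i
    refine Fin.cases ?_ (fun j => ?_) i
    · simpa using h1
    · simpa using h2 j

theorem coord {R : ℝ} (hR : 0 < R) (k : ℕ) : ∀ (n : ℕ) {τ : Type} (F : (Fin n → ℂ) → τ → ℂ),
    (∀ t, DifferentiableOn ℂ (fun x => F x t) (ball 0 R)) →
    (∀ (i : Fin n) (x : Fin n → ℂ), x ∈ ball (0 : Fin n → ℂ) R →
      Mn (fun (s : ball (0 : ℂ) R) t => F (Function.update x i s) t) (k + 1)) →
    FR (fun (x : ball (0 : Fin n → ℂ) R) t => F x t) (k ^ n) := by
  intro n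
  induction n with
  | zero =>
    intro τ F _ _
    refine ⟨fun _ _ => 1, fun _ t => F 0 t, fun s t => ?_⟩
    have : (s : Fin 0 → ℂ) = 0 := Subsingleton.elim _ _
    simp [this]
  | succ n ih =>
    intro τ F hF hline
    have hdc1 : ∀ x : ℂ, Differentiable ℂ (fun s : Fin n → ℂ => (Fin.cons x s : Fin (n + 1) → ℂ)) := by
      intro x
      rw [differentiable_pi]
      intro i
      refine Fin.cases ?_ (fun j => ?_) i
      · simp
      · simp only [Fin.cons_succ]
        fun_prop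
    have hdc2 : ∀ s : Fin n → ℂ, Differentiable ℂ (fun x : ℂ => (Fin.cons x s : Fin (n + 1) → ℂ)) := by
      intro s
      rw [differentiable_pi]
      intro i
      refine Fin.cases ?_ (fun j => ?_) i
      · simp
      · simp
    have key : FR (fun (q : ball (0 : Fin n → ℂ) R × ball (0 : ℂ) R) t =>
        F (Fin.cons (q.2 : ℂ) (q.1 : Fin n → ℂ)) t) (k ^ n * k) := by
      refine two_var (F := fun (s : ball (0 : Fin n → ℂ) R) (x : ℂ) t =>
        F (Fin.cons x (s : Fin n → ℂ)) t) hR ?_ ?_ ?_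
      · intro x hx
        have := ih (fun (s : Fin n → ℂ) t => F (Fin.cons x s) t) ?_ ?_
        · exact this.mn
        · intro t s hs
          have hm := (cons_mem hR x s).2 ⟨hx, hs⟩
          have h1 := (hF t _ hm).differentiableAt (isOpen_ball.mem_nhds hm)
          exact (h1.comp s ((hdc1 x) s)).differentiableWithinAt
        · intro i s hs
          have hm := (cons_mem hR x s).2 ⟨hx, hs⟩
          have h1 := hline i.succ (Fin.cons x s) hm
          have h2 : ∀ z : ℂ, (Fin.cons x (Function.update s i z) : Fin (n + 1) → ℂ) =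
              Function.update (Fin.cons x s : Fin (n + 1) → ℂ) i.succ z := by
            intro z
            exact Fin.cons_update _ _ _ _
          simp only [h2]
          exact h1
      · intro s
        have hm := (cons_mem hR 0 (s : Fin n → ℂ)).2 ⟨mem_ball_self hR, s.2⟩
        have h1 := hline 0 (Fin.cons 0 (s : Fin n → ℂ)) hm
        have h2 : ∀ z : ℂ, Function.update (Fin.cons 0 (s : Fin n → ℂ) : Fin (n + 1) → ℂ) 0 z =
            Fin.cons z (s : Fin n → ℂ) := by
          intro z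
          exact Fin.update_cons_zero _ _ _
        simp only [h2] at h1
        exact h1.fr
      · intro s t x hx
        have hm := (cons_mem hR x (s : Fin n → ℂ)).2 ⟨hx, s.2⟩
        have h1 := (hF t _ hm).differentiableAt (isOpen_ball.mem_nhds hm)
        exact (h1.comp x ((hdc2 (s : Fin n → ℂ)) x)).differentiableWithinAt
    obtain ⟨α, β, hαβ⟩ := key
    rw [pow_succ]
    have hm : ∀ x : ball (0 : Fin (n + 1) → ℂ) R, (x : Fin (n + 1) → ℂ) 0 ∈ ball (0 : ℂ) R ∧
        Fin.tail (x : Fin (n + 1) → ℂ) ∈ ball (0 : Fin n → ℂ) R := by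
      intro x
      rw [← cons_mem hR, Fin.cons_self_tail]
      exact x.2
    refine ⟨fun l x => α l (⟨_, (hm x).2⟩, ⟨_, (hm x).1⟩), β, fun x t => ?_⟩
    have := hαβ (⟨_, (hm x).2⟩, ⟨_, (hm x).1⟩) t
    simp only [Fin.cons_self_tail] at this
    exact this

theorem total_rank {n : ℕ} {R : ℝ} (hR : 0 < R) (k : ℕ) (P : (Fin n → ℂ) → (Fin n → ℂ) → ℂ)
    (hP : DifferentiableOn ℂ (Function.uncurry P)
      (ball (0 : Fin n → ℂ) R ×ˢ ball (0 : Fin n → ℂ) R))
    (hline : ∀ (i i' : Fin n) (x y : Fin n → ℂ), x ∈ ball (0 : Fin n → ℂ) R →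
      y ∈ ball (0 : Fin n → ℂ) R →
      Mn (fun (s : ball (0 : ℂ) R) (t : ball (0 : ℂ) R) =>
        P (Function.update x i s) (Function.update y i' t)) (k + 1)) :
    FR (fun (x : ball (0 : Fin n → ℂ) R) (y : ball (0 : Fin n → ℂ) R) => P x y)
      ((k ^ n) ^ n) := by
  have hopen : IsOpen (ball (0 : Fin n → ℂ) R ×ˢ ball (0 : Fin n → ℂ) R) :=
    isOpen_ball.prod isOpen_ball
  have hupd : ∀ (y : Fin n → ℂ) (i : Fin n) (t : ℂ), y ∈ ball (0 : Fin n → ℂ) R →
      t ∈ ball (0 : ℂ) R → Function.update y i t ∈ ball (0 : Fin n → ℂ) R := by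
    intro y i t hy ht
    rw [mem_ball_zero_iff, pi_norm_lt_iff hR] at hy ⊢
    rw [mem_ball_zero_iff] at ht
    intro j
    by_cases hj : j = i
    · subst hj; simpa using ht
    · rw [Function.update_of_ne hj]; exact hy j
  have h1 : ∀ (i' : Fin n) (y : Fin n → ℂ), y ∈ ball (0 : Fin n → ℂ) R →
      FR (fun (x : ball (0 : Fin n → ℂ) R) (t : ball (0 : ℂ) R) =>
        P x (Function.update y i' t)) (k ^ n) := by
    intro i' y hy
    refine coord hR k n (fun x (t : ball (0 : ℂ) R) => P x (Function.update y i' t)) ?_ ?_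
    · intro t x hx
      have hm : (x, Function.update y i' (t : ℂ)) ∈
          ball (0 : Fin n → ℂ) R ×ˢ ball (0 : Fin n → ℂ) R := ⟨hx, hupd y i' t hy t.2⟩
      have h2 := (hP _ hm).differentiableAt (hopen.mem_nhds hm)
      have h3 : DifferentiableAt ℂ (fun x : Fin n → ℂ => (x, Function.update y i' (t : ℂ))) x := by
        fun_prop
      exact (h2.comp x h3).differentiableWithinAt
    · intro i x hx
      exact hline i i' x y hx hy
  have h2 : FR (fun (y : ball (0 : Fin n → ℂ) R) (x : ball (0 : Fin n → ℂ) R) => P x y)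
      ((k ^ n) ^ n) := by
    refine coord hR (k ^ n) n (fun y (x : ball (0 : Fin n → ℂ) R) => P x y) ?_ ?_
    · intro x y hy
      have hm : ((x : Fin n → ℂ), y) ∈
          ball (0 : Fin n → ℂ) R ×ˢ ball (0 : Fin n → ℂ) R := ⟨x.2, hy⟩
      have h2 := (hP _ hm).differentiableAt (hopen.mem_nhds hm)
      have h3 : DifferentiableAt ℂ (fun y : Fin n → ℂ => ((x : Fin n → ℂ), y)) y := by
        fun_prop
      exact (h2.comp y h3).differentiableWithinAt
    · intro i' y hy
      exact (h1 i' y hy).mn.swap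
  exact h2.swap

theorem prod_diff {ι X : Type*} [NormedAddCommGroup X] [NormedSpace ℂ X] (u : Finset ι)
    (f : ι → X → ℂ) (x : X) (h : ∀ i ∈ u, DifferentiableAt ℂ (f i) x) :
    DifferentiableAt ℂ (fun x => ∏ i ∈ u, f i x) x := by
  classical
  exact (HasFDerivAt.finsetProd (u := u) fun i hi => (h i hi).hasFDerivAt).differentiableAt

theorem det_diff {X : Type*} [NormedAddCommGroup X] [NormedSpace ℂ X] {m : ℕ}
    (M : X → Fin m → Fin m → ℂ) (x : X) (h : ∀ i j, DifferentiableAt ℂ (fun x => M x i j) x) :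
    DifferentiableAt ℂ (fun x => (Matrix.of (M x)).det) x := by
  simp only [Matrix.det_apply]
  refine DifferentiableAt.fun_sum fun π _ => ?_
  refine DifferentiableAt.const_smul ?_ _
  exact prod_diff _ (fun i x => M x (π i) i) x fun i _ => h _ _

theorem line_rank {n k : ℕ} {R : ℝ} (p : (Fin n → ℂ) → ℝ)
    (P : (Fin n → ℂ) → (Fin n → ℂ) → ℂ)
    (hP : DifferentiableOn ℂ (Function.uncurry P)
      (ball (0 : Fin n → ℂ) R ×ˢ ball (0 : Fin n → ℂ) R))
    (hPp : ∀ z ∈ ball (0 : Fin n → ℂ) R, P z (star z) = p z)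
    (hyp : ∀ u b : Fin n → ℂ, ∃ (ε : Fin k → ℝ) (g : Fin k → ℂ → ℂ),
      (∀ j, Differentiable ℂ (g j)) ∧
        ∀ s : ℂ, p (u + s • b) = ∑ j, ε j * Complex.normSq (g j s))
    (s t : Fin (k + 1) → ℂ) (hs : ∀ i, ‖s i‖ < 1) (ht : ∀ i, ‖t i‖ < 1)
    (u b v b' : Fin n → ℂ) (hu : ‖u‖ < R / 8) (hb : ‖b‖ < R / 8) (hv : ‖v‖ < R / 8)
    (hb' : ‖b'‖ < R / 8) :
    (Matrix.of fun i j => P (u + s i • b) (v + t j • b')).det = 0 := by
  have hR : 0 < R := by linarith [norm_nonneg u]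
  have hopen : IsOpen (ball (0 : Fin n → ℂ) R ×ˢ ball (0 : Fin n → ℂ) R) :=
    isOpen_ball.prod isOpen_ball
  have hPd : ∀ x y : Fin n → ℂ, ‖x‖ < R → ‖y‖ < R →
      DifferentiableAt ℂ (Function.uncurry P) (x, y) := by
    intro x y hx hy
    have hm : (x, y) ∈ ball (0 : Fin n → ℂ) R ×ˢ ball (0 : Fin n → ℂ) R :=
      ⟨mem_ball_zero_iff.2 hx, mem_ball_zero_iff.2 hy⟩
    exact (hP _ hm).differentiableAt (hopen.mem_nhds hm)
  have hnorm : ∀ (x y : Fin n → ℂ) (σ : ℂ) (c : ℝ), ‖x‖ < R / 4 → ‖y‖ < R / 4 → ‖σ‖ < 2 →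
      ‖x + σ • y‖ < R := by
    intro x y σ c hx hy hσ
    have h1 : ‖x + σ • y‖ ≤ ‖x‖ + ‖σ‖ * ‖y‖ := by
      refine (norm_add_le _ _).trans ?_
      rw [norm_smul]
    have h2 : ‖σ‖ * ‖y‖ ≤ 2 * ‖y‖ := mul_le_mul_of_nonneg_right hσ.le (norm_nonneg _)
    linarith
  -- the identity on the conjugate diagonal
  have hdiag : ∀ u b : Fin n → ℂ, ‖u‖ < R / 4 → ‖b‖ < R / 4 →
      (Matrix.of fun i j => P (u + s i • b) (star u + t j • star b)).det = 0 := by
    intro u b hu hb
    obtain ⟨ε, g, hg, hpg⟩ := hyp u b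
    let Φ : ℂ × ℂ → ℂ := fun q => P (u + q.1 • b) (star u + q.2 • star b) -
      ∑ j, (ε j : ℂ) * g j q.1 * star (g j (star q.2))
    have hΦ : DifferentiableOn ℂ Φ (ball 0 2 ×ˢ ball 0 2) := by
      intro q hq
      have hq1 : ‖q.1‖ < 2 := mem_ball_zero_iff.1 hq.1
      have hq2 : ‖q.2‖ < 2 := mem_ball_zero_iff.1 hq.2
      have h1 := hPd (u + q.1 • b) (star u + q.2 • star b) (hnorm _ _ _ 0 hu hb hq1)
        (hnorm _ _ _ 0 (by rwa [norm_star]) (by rwa [norm_star]) hq2)
      have h2 : DifferentiableAt ℂ (fun q : ℂ × ℂ =>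
          (u + q.1 • b, star u + q.2 • star b)) q := by fun_prop
      have h3 : DifferentiableAt ℂ (fun q : ℂ × ℂ =>
          P (u + q.1 • b) (star u + q.2 • star b)) q :=
        h1.comp (f := fun q : ℂ × ℂ => (u + q.1 • b, star u + q.2 • star b)) q h2
      refine (h3.sub ?_).differentiableWithinAt
      refine DifferentiableAt.fun_sum fun j _ => ?_
      have h4 : DifferentiableAt ℂ (fun q : ℂ × ℂ => g j q.1) q :=
        (hg j q.1).comp q differentiableAt_fst
      have h5 : DifferentiableAt ℂ (fun w : ℂ => star (g j (star w))) q.2 := by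
        have := star_diff (U := univ) (V := univ) (g j) isOpen_univ (hg j).differentiableOn
          (fun _ _ => mem_univ _)
        exact (this q.2 (mem_univ _)).differentiableAt univ_mem
      have h6 : DifferentiableAt ℂ (fun q : ℂ × ℂ => star (g j (star q.2))) q :=
        h5.comp q differentiableAt_snd
      exact (h4.const_mul _).mul h6
    have hΦ0 : ∀ z ∈ ball (0 : ℂ) 2, Φ (z, star z) = 0 := by
      intro z hz
      have hz' : ‖z‖ < 2 := mem_ball_zero_iff.1 hz
      show P (u + z • b) (star u + star z • star b) -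
        ∑ j, (ε j : ℂ) * g j z * star (g j (star (star z))) = 0
      rw [← star_smul, ← star_add, hPp _ (mem_ball_zero_iff.2 (hnorm _ _ _ 0 hu hb hz')), hpg,
        sub_eq_zero]
      push_cast
      refine Finset.sum_congr rfl fun j _ => ?_
      rw [star_star, Complex.normSq_eq_conj_mul_self]
      have : star (g j z) = (starRingEnd ℂ) (g j z) := rfl
      rw [this]; ring
    have h7 := conj_diag_zero Φ hΦ hΦ0
    norm_num at h7
    have h8 : FR (fun (σ : ball (0 : ℂ) 1) (τ : ball (0 : ℂ) 1) =>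
        P (u + (σ : ℂ) • b) (star u + (τ : ℂ) • star b)) k := by
      refine ⟨fun j σ => (ε j : ℂ) * g j σ, fun j τ => star (g j (star (τ : ℂ))), fun σ τ => ?_⟩
      have := h7 σ (mem_ball_zero_iff.1 σ.2) τ (mem_ball_zero_iff.1 τ.2)
      exact sub_eq_zero.1 this
    exact h8.mn (fun i => ⟨s i, mem_ball_zero_iff.2 (hs i)⟩)
      (fun j => ⟨t j, mem_ball_zero_iff.2 (ht j)⟩)
  let Ψ : ((Fin n → ℂ) × (Fin n → ℂ)) × ((Fin n → ℂ) × (Fin n → ℂ)) → ℂ := fun q =>
    (Matrix.of fun i j => P (q.1.1 + s i • q.1.2) (q.2.1 + t j • q.2.2)).det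
  have hΨ : DifferentiableOn ℂ Ψ (ball 0 (R / 4) ×ˢ ball 0 (R / 4)) := by
    intro q hq
    have hq1 : ‖q.1‖ < R / 4 := mem_ball_zero_iff.1 hq.1
    have hq2 : ‖q.2‖ < R / 4 := mem_ball_zero_iff.1 hq.2
    rw [Prod.norm_def, max_lt_iff] at hq1 hq2
    refine (det_diff (fun (q : ((Fin n → ℂ) × (Fin n → ℂ)) × ((Fin n → ℂ) × (Fin n → ℂ))) i j =>
      P (q.1.1 + s i • q.1.2) (q.2.1 + t j • q.2.2)) q fun i j => ?_).differentiableWithinAt
    have h1 := hPd (q.1.1 + s i • q.1.2) (q.2.1 + t j • q.2.2)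
      (hnorm _ _ _ 0 hq1.1 hq1.2 ((hs i).trans (by norm_num)))
      (hnorm _ _ _ 0 hq2.1 hq2.2 ((ht j).trans (by norm_num)))
    have h2 : DifferentiableAt ℂ (fun q : ((Fin n → ℂ) × (Fin n → ℂ)) ×
        ((Fin n → ℂ) × (Fin n → ℂ)) => (q.1.1 + s i • q.1.2, q.2.1 + t j • q.2.2)) q := by
      fun_prop
    exact h1.comp q h2
  have hΨ0 : ∀ z ∈ ball (0 : (Fin n → ℂ) × (Fin n → ℂ)) (R / 4), Ψ (z, star z) = 0 := by
    intro z hz
    have hz' := mem_ball_zero_iff.1 hz
    rw [Prod.norm_def, max_lt_iff] at hz'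
    exact hdiag z.1 z.2 hz'.1 hz'.2
  have h9 := conj_diag_zero Ψ hΨ hΨ0 (u, b)
    (by rw [mem_ball_zero_iff, Prod.norm_def, max_lt_iff]; constructor <;> simp only <;> linarith)
    (v, b')
    (by rw [mem_ball_zero_iff, Prod.norm_def, max_lt_iff]; constructor <;> simp only <;> linarith)
  exact h9

end Pool.Agent.V1172.HR
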