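import Mathlib

/-!
Complexification of real-analytic functions on `ℂⁿ`.
-/

set_option autoImplicit false

open Set Filter Topology Metric

open scoped NNReal ENNReal

namespace Pool.Agent.V1172.HR

/-- The real basis of `ℂⁿ`. -/
noncomputable def bas {n : ℕ} : Fin n ⊕ Fin n → (Fin n → ℂ)
  | Sum.inl j => Pi.single j 1
  | Sum.inr j => Pi.single j Complex.I

/-- The complexified coordinates. -/
noncomputable def crd {n : ℕ} : Fin n ⊕ Fin n → ((Fin n → ℂ) × (Fin n → ℂ)) →L[ℂ] ℂ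
  | Sum.inl j => (1 / 2 : ℂ) • ((ContinuousLinearMap.proj j).comp
      (ContinuousLinearMap.fst ℂ (Fin n → ℂ) (Fin n → ℂ)) +
      (ContinuousLinearMap.proj j).comp (ContinuousLinearMap.snd ℂ (Fin n → ℂ) (Fin n → ℂ)))
  | Sum.inr j => (-Complex.I / 2 : ℂ) • ((ContinuousLinearMap.proj j).comp
      (ContinuousLinearMap.fst ℂ (Fin n → ℂ) (Fin n → ℂ)) -
      (ContinuousLinearMap.proj j).comp (ContinuousLinearMap.snd ℂ (Fin n → ℂ) (Fin n → ℂ)))

/-- The real coordinates. -/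
noncomputable def rcrd {n : ℕ} (y : Fin n → ℂ) : Fin n ⊕ Fin n → ℝ
  | Sum.inl j => (y j).re
  | Sum.inr j => (y j).im

theorem norm_bas {n : ℕ} (i : Fin n ⊕ Fin n) : ‖(bas i : Fin n → ℂ)‖ ≤ 1 := by
  rcases i with j | j
  · simp [bas, Pi.norm_single]
  · simp [bas, Pi.norm_single]

theorem norm_crd_apply {n : ℕ} (i : Fin n ⊕ Fin n) (q : (Fin n → ℂ) × (Fin n → ℂ)) :
    ‖crd i q‖ ≤ ‖q‖ := by
  have h1 : ∀ j, ‖q.1 j‖ ≤ ‖q‖ := fun j => (norm_le_pi_norm q.1 j).trans (norm_fst_le q)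
  have h2 : ∀ j, ‖q.2 j‖ ≤ ‖q‖ := fun j => (norm_le_pi_norm q.2 j).trans (norm_snd_le q)
  rcases i with j | j
  · have h3 : crd (Sum.inl j) q = (1 / 2 : ℂ) * (q.1 j + q.2 j) := by
      simp [crd, mul_add]
    rw [h3, norm_mul]
    have h4 := norm_add_le (q.1 j) (q.2 j)
    have h5 : ‖(1 / 2 : ℂ)‖ = 1 / 2 := by simp
    rw [h5]
    linarith [h1 j, h2 j]
  · have h3 : crd (Sum.inr j) q = (-Complex.I / 2 : ℂ) * (q.1 j - q.2 j) := by
      simp [crd]
    rw [h3, norm_mul]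
    have h4 := norm_sub_le (q.1 j) (q.2 j)
    have h5 : ‖(-Complex.I / 2 : ℂ)‖ = 1 / 2 := by simp
    rw [h5]
    linarith [h1 j, h2 j]

theorem crd_star {n : ℕ} (i : Fin n ⊕ Fin n) (y : Fin n → ℂ) :
    crd i (y, star y) = (rcrd y i : ℂ) := by
  rcases i with j | j
  · have h3 : crd (Sum.inl j) (y, star y) = (1 / 2 : ℂ) * (y j + star (y j)) := by
      simp [crd, mul_add]
    rw [h3]
    show (1 / 2 : ℂ) * (y j + (starRingEnd ℂ) (y j)) = ((y j).re : ℂ)
    rw [Complex.add_conj]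
    push_cast
    ring
  · have h3 : crd (Sum.inr j) (y, star y) = (-Complex.I / 2 : ℂ) * (y j - star (y j)) := by
      simp [crd]
    rw [h3]
    show (-Complex.I / 2 : ℂ) * (y j - (starRingEnd ℂ) (y j)) = ((y j).im : ℂ)
    rw [Complex.sub_conj]
    push_cast
    have := Complex.I_mul_I
    calc (-Complex.I / 2 : ℂ) * (2 * (y j).im * Complex.I) =
        -(Complex.I * Complex.I) * (y j).im := by ring
      _ = _ := by rw [this]; ring

theorem sum_rcrd {n : ℕ} (y : Fin n → ℂ) : ∑ i, rcrd y i • (bas i : Fin n → ℂ) = y := by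
  rw [Fintype.sum_sum_type]
  ext j
  simp only [rcrd, bas, Pi.add_apply, Finset.sum_apply, Pi.smul_apply]
  have h1 : ∀ x : Fin n, ((y x).re • (Pi.single x (1 : ℂ) : Fin n → ℂ) j) =
      if j = x then ((y j).re : ℂ) else 0 := by
    intro x
    by_cases h : j = x
    · subst h; simp
    · simp [h]
  have h2 : ∀ x : Fin n, ((y x).im • (Pi.single x Complex.I : Fin n → ℂ) j) =
      if j = x then ((y j).im : ℂ) * Complex.I else 0 := by
    intro x
    by_cases h : j = x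
    · subst h; simp
    · simp [h]
  simp only [h1, h2]
  simp [Complex.re_add_im]

/-- Complexification of the multilinear maps. -/
noncomputable def cml {n : ℕ} {m : ℕ}
    (q : ContinuousMultilinearMap ℝ (fun _ : Fin m => (Fin n → ℂ)) ℝ) :
    ContinuousMultilinearMap ℂ (fun _ : Fin m => ((Fin n → ℂ) × (Fin n → ℂ))) ℂ :=
  ∑ f : Fin m → Fin n ⊕ Fin n, ((q fun l => bas (f l) : ℝ) : ℂ) •
    (ContinuousMultilinearMap.mkPiAlgebra ℂ (Fin m) ℂ).compContinuousLinearMap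
      (fun l => crd (f l))

theorem cml_apply {n m : ℕ} (q : ContinuousMultilinearMap ℝ (fun _ : Fin m => (Fin n → ℂ)) ℝ)
    (v : Fin m → (Fin n → ℂ) × (Fin n → ℂ)) :
    cml q v = ∑ f : Fin m → Fin n ⊕ Fin n, ((q fun l => bas (f l) : ℝ) : ℂ) *
      ∏ l, crd (f l) (v l) := by
  simp [cml]

theorem cml_star {n m : ℕ} (q : ContinuousMultilinearMap ℝ (fun _ : Fin m => (Fin n → ℂ)) ℝ)
    (y : Fin n → ℂ) : cml q (fun _ => (y, star y)) = ((q fun _ => y : ℝ) : ℂ) := by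
  classical
  rw [cml_apply]
  have h : (q fun _ => y) = ∑ f : Fin m → Fin n ⊕ Fin n,
      (∏ l, rcrd y (f l)) • (q fun l => bas (f l)) := by
    conv_lhs => rw [← sum_rcrd y]
    rw [q.map_sum]
    refine Finset.sum_congr rfl fun f _ => ?_
    rw [q.map_smul_univ]
  rw [h]
  push_cast
  refine Finset.sum_congr rfl fun f _ => ?_
  simp only [crd_star, smul_eq_mul]
  push_cast
  ring

theorem norm_cml {n m : ℕ} (q : ContinuousMultilinearMap ℝ (fun _ : Fin m => (Fin n → ℂ)) ℝ) :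
    ‖cml q‖ ≤ ((2 * n : ℕ) : ℝ) ^ m * ‖q‖ := by
  refine ContinuousMultilinearMap.opNorm_le_bound (by positivity) fun v => ?_
  rw [cml_apply]
  refine (norm_sum_le _ _).trans ?_
  have h1 : ∀ f ∈ (Finset.univ : Finset (Fin m → Fin n ⊕ Fin n)),
      ‖((q fun l => bas (f l) : ℝ) : ℂ) * ∏ l, crd (f l) (v l)‖ ≤ ‖q‖ * ∏ l, ‖v l‖ := by
    intro f _
    rw [norm_mul, Complex.norm_real, norm_prod]
    refine mul_le_mul ?_ ?_ (Finset.prod_nonneg fun _ _ => norm_nonneg _) (norm_nonneg _)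
    · refine (q.le_opNorm _).trans ?_
      refine mul_le_of_le_one_right (norm_nonneg _) ?_
      exact Finset.prod_le_one (fun _ _ => norm_nonneg _) fun l _ => norm_bas _
    · exact Finset.prod_le_prod (fun _ _ => norm_nonneg _) fun l _ => norm_crd_apply _ _
  refine (Finset.sum_le_card_nsmul _ _ _ h1).trans ?_
  rw [Finset.card_univ, Fintype.card_fun, Fintype.card_sum, Fintype.card_fin, Fintype.card_fin,
    nsmul_eq_mul]
  push_cast
  rw [← two_mul, mul_assoc]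

theorem complexify {n : ℕ} (p : (Fin n → ℂ) → ℝ) (a : Fin n → ℂ) (hp : AnalyticAt ℝ p a) :
    ∃ δ > 0, ∃ P : (Fin n → ℂ) → (Fin n → ℂ) → ℂ,
      DifferentiableOn ℂ (Function.uncurry P) (ball a δ ×ˢ ball (star a) δ) ∧
      ∀ z ∈ ball a δ, P z (star z) = p z := by
  obtain ⟨q, r, hq⟩ := hp
  have hr : 0 < r := hq.r_pos
  obtain ⟨r', hr'0, hr'⟩ := ENNReal.lt_iff_exists_nnreal_btwn.1 hr
  have hr'pos : 0 < r' := by exact_mod_cast hr'0
  have hrad : (r' : ℝ≥0∞) < q.radius := hr'.trans_le hq.r_le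
  obtain ⟨C, hC, hbound⟩ := q.norm_mul_pow_le_of_lt_radius hrad
  let Q : FormalMultilinearSeries ℂ ((Fin n → ℂ) × (Fin n → ℂ)) ℂ := fun m => cml (q m)
  let K : ℝ≥0 := ((2 * n + 1 : ℕ) : ℝ≥0)
  have hK : 0 < K := by
    show (0 : ℝ≥0) < ((2 * n + 1 : ℕ) : ℝ≥0)
    exact_mod_cast Nat.succ_pos _
  let ρ : ℝ≥0 := r' / K
  have hρ : 0 < ρ := div_pos hr'pos hK
  have hQb : ∀ m, ‖Q m‖ * (ρ : ℝ) ^ m ≤ C := by
    intro m
    have h1 : ‖Q m‖ ≤ ((2 * n : ℕ) : ℝ) ^ m * ‖q m‖ := norm_cml (q m)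
    have h2 : ((2 * n : ℕ) : ℝ) * ρ ≤ r' := by
      have h3 : (ρ : ℝ) = r' / ((2 * n + 1 : ℕ) : ℝ) := by
        simp [ρ, K]
      rw [h3, mul_div_assoc', div_le_iff₀ (by positivity)]
      have : ((2 * n : ℕ) : ℝ) ≤ ((2 * n + 1 : ℕ) : ℝ) := by exact_mod_cast Nat.le_succ _
      rw [mul_comm]
      exact mul_le_mul_of_nonneg_left this (NNReal.coe_nonneg _)
    calc ‖Q m‖ * (ρ : ℝ) ^ m ≤ (((2 * n : ℕ) : ℝ) ^ m * ‖q m‖) * (ρ : ℝ) ^ m := by
          exact mul_le_mul_of_nonneg_right h1 (by positivity)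
      _ = ‖q m‖ * (((2 * n : ℕ) : ℝ) * ρ) ^ m := by rw [mul_pow]; ring
      _ ≤ ‖q m‖ * (r' : ℝ) ^ m := by
          refine mul_le_mul_of_nonneg_left ?_ (norm_nonneg _)
          exact pow_le_pow_left₀ (by positivity) h2 m
      _ ≤ C := hbound m
  have hQrad : (ρ : ℝ≥0∞) ≤ Q.radius := Q.le_radius_of_bound C hQb
  have hQpos : 0 < Q.radius := lt_of_lt_of_le (by exact_mod_cast hρ) hQrad
  have hQs := Q.hasFPowerSeriesOnBall hQpos
  have hQd := hQs.differentiableOn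
  refine ⟨ρ, hρ, fun z w => Q.sum (z - a, w - star a), ?_, ?_⟩
  · intro x hx
    have hx1 : ‖x.1 - a‖ < ρ := mem_ball_iff_norm.1 hx.1
    have hx2 : ‖x.2 - star a‖ < ρ := mem_ball_iff_norm.1 hx.2
    have hmem : (x.1 - a, x.2 - star a) ∈ Metric.eball (0 : (Fin n → ℂ) × (Fin n → ℂ)) Q.radius := by
      refine Metric.eball_subset_eball hQrad ?_
      rw [Metric.eball_coe, mem_ball_zero_iff, Prod.norm_def, max_lt_iff]
      exact ⟨hx1, hx2⟩
    have h1 := (hQd _ hmem).differentiableAt (Metric.isOpen_eball.mem_nhds hmem)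
    have h2 : DifferentiableAt ℂ (fun x : (Fin n → ℂ) × (Fin n → ℂ) => (x.1 - a, x.2 - star a)) x := by
      fun_prop
    exact (h1.comp x h2).differentiableWithinAt
  · intro z hz
    have hz1 : ‖z - a‖ < ρ := mem_ball_iff_norm.1 hz
    have hmem : (z - a, star z - star a) ∈
        Metric.eball (0 : (Fin n → ℂ) × (Fin n → ℂ)) Q.radius := by
      refine Metric.eball_subset_eball hQrad ?_
      rw [Metric.eball_coe, mem_ball_zero_iff, Prod.norm_def, max_lt_iff]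
      refine ⟨hz1, ?_⟩
      simp only
      rw [← star_sub, norm_star]
      exact hz1
    have hs1 := hQs.hasSum hmem
    have hmem2 : z - a ∈ Metric.eball (0 : Fin n → ℂ) r := by
      have hρr : (ρ : ℝ≥0∞) ≤ r := by
        refine le_trans ?_ hr'.le
        have : ρ ≤ r' := by
          show r' / K ≤ r'
          have hK1 : (1 : ℝ≥0) ≤ K := by
            show (1 : ℝ≥0) ≤ ((2 * n + 1 : ℕ) : ℝ≥0)
            exact_mod_cast Nat.succ_le_succ (Nat.zero_le _)
          exact div_le_self zero_le hK1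
        exact_mod_cast this
      refine Metric.eball_subset_eball hρr ?_
      rw [Metric.eball_coe, mem_ball_zero_iff]
      exact hz1
    have hs2 := hq.hasSum hmem2
    have hs3 : HasSum (fun m => ((q m fun _ => z - a : ℝ) : ℂ)) ((p (a + (z - a)) : ℝ) : ℂ) :=
      Complex.hasSum_ofReal.2 hs2
    have hs4 : ∀ m, (Q m fun _ => (z - a, star z - star a)) = ((q m fun _ => z - a : ℝ) : ℂ) := by
      intro m
      rw [← star_sub]
      exact cml_star (q m) (z - a)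
    simp only [hs4, zero_add] at hs1
    have := hs1.unique hs3
    show Q.sum (z - a, star z - star a) = _
    rw [this]
    congr 2
    abel

end Pool.Agent.V1172.HR
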