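import Pool.Agent.V1172.HR.Coord
import Pool.Agent.V1172.HR.Cplx

/-!
Extension of local finite-rank representations of real-analytic functions.
-/

set_option autoImplicit false

open Set Filter Topology Metric

namespace Pool.Agent.V1172.HR

theorem patch {n d : ℕ} {η δ : ℝ} (a : Fin n → ℂ) (hη : 0 < η) (hδ : 0 < δ)
    (p : (Fin n → ℂ) → ℝ) (A C : Fin d → (Fin n → ℂ) → ℂ)
    (hA : ∀ j, DifferentiableOn ℂ (A j) (ball a η))
    (hC : ∀ j, DifferentiableOn ℂ (C j) (ball a η))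
    (hp : ∀ z ∈ ball a η, (p z : ℂ) = ∑ j, A j z * star (C j z))
    (P : (Fin n → ℂ) → (Fin n → ℂ) → ℂ)
    (hP : DifferentiableOn ℂ (Function.uncurry P) (ball a δ ×ˢ ball (star a) δ))
    (hPp : ∀ z ∈ ball a δ, P z (star z) = p z)
    (hind : ∀ c : Fin d → ℂ, (∀ᶠ z in 𝓝 a, ∑ j, c j * C j z = 0) → c = 0) :
    ∃ G : Fin d → (Fin n → ℂ) → ℂ, (∀ j, DifferentiableOn ℂ (G j) (ball a δ)) ∧
      ∀ j, ∀ᶠ z in 𝓝 a, G j z = A j z := by
  obtain ⟨η0, hη0def⟩ : ∃ η0 : ℝ, η0 = min η δ := ⟨_, rfl⟩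
  have hη0 : 0 < η0 := by rw [hη0def]; exact lt_min hη hδ
  have hle1 : η0 ≤ η := by rw [hη0def]; exact min_le_left _ _
  have hle2 : η0 ≤ δ := by rw [hη0def]; exact min_le_right _ _
  have hopen : IsOpen (ball a δ ×ˢ ball (star a) δ) := isOpen_ball.prod isOpen_ball
  let Φ : (Fin n → ℂ) × (Fin n → ℂ) → ℂ := fun q =>
    P q.1 q.2 - ∑ j, A j q.1 * star (C j (star q.2))
  have hΦ : DifferentiableOn ℂ Φ (ball a η0 ×ˢ ball (star a) η0) := by
    intro q hq
    have hm : q ∈ ball a δ ×ˢ ball (star a) δ :=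
      ⟨ball_subset_ball hle2 hq.1, ball_subset_ball hle2 hq.2⟩
    have h1 : DifferentiableAt ℂ (Function.uncurry P) q :=
      (hP _ hm).differentiableAt (hopen.mem_nhds hm)
    have h1' : DifferentiableAt ℂ (fun q : (Fin n → ℂ) × (Fin n → ℂ) => P q.1 q.2) q := h1
    refine (h1'.sub ?_).differentiableWithinAt
    refine DifferentiableAt.fun_sum fun j _ => ?_
    have h2 : DifferentiableAt ℂ (A j) q.1 :=
      (hA j _ (ball_subset_ball hle1 hq.1)).differentiableAt
        (isOpen_ball.mem_nhds (ball_subset_ball hle1 hq.1))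
    have h3 : DifferentiableAt ℂ (fun q : (Fin n → ℂ) × (Fin n → ℂ) => A j q.1) q :=
      h2.comp q differentiableAt_fst
    have h4 := star_diff (V := ball (star a) η) (C j) isOpen_ball (hC j) (by
      intro z hz
      rw [mem_ball, ← dist_star_star, star_star]
      exact hz)
    have hq2 : q.2 ∈ ball (star a) η := ball_subset_ball hle1 hq.2
    have h5 : DifferentiableAt ℂ (fun z => star (C j (star z))) q.2 :=
      (h4 _ hq2).differentiableAt (isOpen_ball.mem_nhds hq2)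
    have h6 : DifferentiableAt ℂ (fun q : (Fin n → ℂ) × (Fin n → ℂ) => star (C j (star q.2))) q :=
      h5.comp q differentiableAt_snd
    exact h3.mul h6
  have hΦ0 : ∀ z ∈ ball a η0, Φ (z, star z) = 0 := by
    intro z hz
    show P z (star z) - ∑ j, A j z * star (C j (star (star z))) = 0
    rw [hPp z (ball_subset_ball hle2 hz), hp z (ball_subset_ball hle1 hz)]
    simp
  have hzero := conj_diag_zero' a Φ hΦ hΦ0
  -- nodes
  obtain ⟨w, hw⟩ := nodes_indep (fun (j : Fin d) (z : ball a (η0 / 2)) => star (C j z)) (by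
    intro c hc
    have h1 : (fun j => star (c j)) = 0 := by
      apply hind
      have hnb : ball a (η0 / 2) ∈ 𝓝 a := ball_mem_nhds a (by linarith)
      filter_upwards [hnb] with z hz
      have := hc ⟨z, hz⟩
      have h2 := congrArg star this
      rw [star_sum, star_zero] at h2
      rw [← h2]
      refine Finset.sum_congr rfl fun j _ => ?_
      simp [mul_comm]
    ext j
    have := congrFun h1 j
    simpa using this)
  set M : Matrix (Fin d) (Fin d) ℂ := Matrix.of fun i l => star (C l (w i)) with hM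
  have hMu : IsUnit M.det := isUnit_iff_ne_zero.2 hw
  refine ⟨fun j z => ∑ i, M⁻¹ j i * P z (star (w i : Fin n → ℂ)), ?_, ?_⟩
  · intro j z hz
    refine (DifferentiableAt.fun_sum fun i _ => ?_).differentiableWithinAt
    refine DifferentiableAt.const_mul ?_ _
    have hwi : (star (w i : Fin n → ℂ)) ∈ ball (star a) δ := by
      rw [mem_ball, dist_star_star]
      have := (w i).2
      exact (mem_ball.1 this).trans_le (by linarith)
    have hm : (z, star (w i : Fin n → ℂ)) ∈ ball a δ ×ˢ ball (star a) δ := ⟨hz, hwi⟩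
    have h1 : DifferentiableAt ℂ (Function.uncurry P) (z, star (w i : Fin n → ℂ)) :=
      (hP _ hm).differentiableAt (hopen.mem_nhds hm)
    have h2 : DifferentiableAt ℂ (fun z : Fin n → ℂ => (z, star (w i : Fin n → ℂ))) z := by
      fun_prop
    exact h1.comp z h2
  · intro j
    have hnb : ball a (η0 / 2) ∈ 𝓝 a := ball_mem_nhds a (by linarith)
    filter_upwards [hnb] with z hz
    have h1 : ∀ i, P z (star (w i : Fin n → ℂ)) = ∑ l, M i l * A l z := by
      intro i
      have h2 := hzero z hz (star (w i : Fin n → ℂ)) (by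
        rw [mem_ball, dist_star_star]; exact (w i).2)
      have h3 : P z (star (w i : Fin n → ℂ)) -
        ∑ j, A j z * star (C j (star (star (w i : Fin n → ℂ)))) = 0 := h2
      rw [star_star] at h3
      rw [sub_eq_zero.1 h3]
      refine Finset.sum_congr rfl fun l _ => ?_
      rw [hM, Matrix.of_apply, mul_comm]
    have h4 : (fun i => P z (star (w i : Fin n → ℂ))) = M.mulVec (fun l => A l z) := by
      ext i
      rw [h1]
      rfl
    have h5 : M⁻¹.mulVec (M.mulVec (fun l => A l z)) = fun l => A l z := by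
      rw [Matrix.mulVec_mulVec, Matrix.nonsing_inv_mul M hMu, Matrix.one_mulVec]
    have h6 := congrFun h5 j
    rw [← h4] at h6
    exact h6

theorem glue {n : ℕ} {R δ : ℝ} (hR : 0 < R) (hδ : 0 < δ) (F : (Fin n → ℂ) → ℂ)
    (hF : DifferentiableOn ℂ F (ball 0 R))
    (h : ∀ a ∈ ball (0 : Fin n → ℂ) R, ∃ G : (Fin n → ℂ) → ℂ,
      DifferentiableOn ℂ G (ball a δ) ∧ ∀ᶠ z in 𝓝 a, G z = F z) :
    ∃ F' : (Fin n → ℂ) → ℂ, DifferentiableOn ℂ F' (ball 0 (R + δ / 4)) ∧
      ∀ᶠ z in 𝓝 0, F' z = F z := by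
  choose! G hG1 hG2 using h
  have hconv : ∀ (a b : Fin n → ℂ) (r s : ℝ), Convex ℝ (ball a r ∩ ball b s) :=
    fun a b r s => (convex_ball a r).inter (convex_ball b s)
  have key1 : ∀ a ∈ ball (0 : Fin n → ℂ) R, ∀ z ∈ ball a δ ∩ ball 0 R, G a z = F z := by
    intro a ha
    refine convex_identity (isOpen_ball.inter isOpen_ball) (hconv _ _ _ _) (G a) F
      ((hG1 a ha).mono inter_subset_left) (hF.mono inter_subset_right)
      ⟨mem_ball_self hδ, ha⟩ (hG2 a ha)
  have key2 : ∀ a ∈ ball (0 : Fin n → ℂ) R, ∀ a' ∈ ball (0 : Fin n → ℂ) R, a' ∈ ball a δ →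
      ∀ z, z ∈ ball a δ → z ∈ ball a' δ → G a z = G a' z := by
    intro a ha a' ha' haa' z hz hz'
    refine convex_identity (isOpen_ball.inter isOpen_ball) (hconv a a' δ δ) (G a) (G a')
      ((hG1 a ha).mono inter_subset_left) ((hG1 a' ha').mono inter_subset_right)
      (a := a') ⟨haa', mem_ball_self hδ⟩ ?_ z ⟨hz, hz'⟩
    have hnb : ball a δ ∩ ball 0 R ∈ 𝓝 a' :=
      (isOpen_ball.inter isOpen_ball).mem_nhds ⟨haa', ha'⟩
    filter_upwards [hnb, hG2 a' ha'] with w hw1 hw2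
    rw [key1 a ha w hw1, hw2]
  obtain ⟨lam, hlam⟩ : ∃ lam : ℝ, lam = R / (R + δ / 4) := ⟨_, rfl⟩
  have hpos : 0 < R + δ / 4 := by linarith
  have hlam0 : 0 < lam := by rw [hlam]; positivity
  have hlam1 : lam < 1 := by rw [hlam, div_lt_one hpos]; linarith
  have hlamR : lam * (R + δ / 4) = R := by rw [hlam]; field_simp
  have hnl : ∀ z : Fin n → ℂ, ‖lam • z‖ = lam * ‖z‖ := by
    intro z
    rw [norm_smul, Real.norm_eq_abs, abs_of_pos hlam0]
  have hmem1 : ∀ z ∈ ball (0 : Fin n → ℂ) (R + δ / 4), lam • z ∈ ball (0 : Fin n → ℂ) R := by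
    intro z hz
    rw [mem_ball_zero_iff] at hz ⊢
    rw [hnl, ← hlamR]
    exact mul_lt_mul_of_pos_left hz hlam0
  have hmem2 : ∀ z ∈ ball (0 : Fin n → ℂ) (R + δ / 4), z ∈ ball (lam • z) δ := by
    intro z hz
    rw [mem_ball_zero_iff] at hz
    rw [mem_ball_iff_norm]
    have : z - lam • z = (1 - lam) • z := by rw [sub_smul, one_smul]
    rw [this, norm_smul, Real.norm_eq_abs, abs_of_pos (by linarith)]
    have h1 : (1 - lam) * ‖z‖ < (1 - lam) * (R + δ / 4) := mul_lt_mul_of_pos_left hz (by linarith)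
    have h2 : (1 - lam) * (R + δ / 4) = δ / 4 := by
      rw [sub_mul, one_mul, hlamR]; ring
    linarith
  have key3 : ∀ z0 ∈ ball (0 : Fin n → ℂ) (R + δ / 4),
      ∀ᶠ z in 𝓝 z0, G (lam • z) z = G (lam • z0) z := by
    intro z0 hz0
    have hc : Continuous fun z : Fin n → ℂ => lam • z := by fun_prop
    have e1 : ∀ᶠ z in 𝓝 z0, z ∈ ball (0 : Fin n → ℂ) (R + δ / 4) :=
      isOpen_ball.mem_nhds hz0
    have e2 : ∀ᶠ z in 𝓝 z0, z ∈ ball (lam • z0) δ :=
      isOpen_ball.mem_nhds (hmem2 z0 hz0)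
    have e3 : ∀ᶠ z in 𝓝 z0, lam • z ∈ ball (lam • z0) δ :=
      hc.continuousAt (isOpen_ball.mem_nhds (mem_ball_self hδ))
    filter_upwards [e1, e2, e3] with z h1 h2 h3
    exact (key2 _ (hmem1 z0 hz0) _ (hmem1 z h1) h3 z h2 (hmem2 z h1)).symm
  refine ⟨fun z => G (lam • z) z, ?_, ?_⟩
  · intro z0 hz0
    have h1 : DifferentiableAt ℂ (G (lam • z0)) z0 :=
      (hG1 _ (hmem1 z0 hz0) _ (hmem2 z0 hz0)).differentiableAt
        (isOpen_ball.mem_nhds (hmem2 z0 hz0))
    exact (h1.congr_of_eventuallyEq (key3 z0 hz0)).differentiableWithinAt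
  · have h0 : (0 : Fin n → ℂ) ∈ ball (0 : Fin n → ℂ) (R + δ / 4) := mem_ball_self hpos
    have h1 := key3 0 h0
    have h2 := hG2 0 (mem_ball_self hR)
    rw [smul_zero] at h1
    filter_upwards [h1, h2] with z h3 h4
    rw [h3, h4]

theorem real_identity {n d : ℕ} {R : ℝ} (p : (Fin n → ℂ) → ℝ) (hp : AnalyticOnNhd ℝ p univ)
    (A C : Fin d → (Fin n → ℂ) → ℂ)
    (hA : ∀ j, DifferentiableOn ℂ (A j) (ball 0 R))
    (hC : ∀ j, DifferentiableOn ℂ (C j) (ball 0 R))
    (h0 : ∀ᶠ z in 𝓝 0, (p z : ℂ) = ∑ j, A j z * star (C j z)) :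
    ∀ z ∈ ball (0 : Fin n → ℂ) R, (p z : ℂ) = ∑ j, A j z * star (C j z) := by
  intro z hz
  rw [mem_ball_zero_iff] at hz
  have hR : 0 < R := (norm_nonneg z).trans_lt hz
  let V : Set ℂ := {s | ‖s • z‖ < R}
  have hVo : IsOpen V := by
    have : Continuous fun s : ℂ => ‖s • z‖ := by fun_prop
    exact isOpen_lt this continuous_const
  let I : Set ℝ := {t | ‖t • z‖ < R}
  have hIo : IsOpen I := by
    have : Continuous fun s : ℝ => ‖s • z‖ := by fun_prop
    exact isOpen_lt this continuous_const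
  have hIc : Convex ℝ I := by
    intro s hs t ht a b ha hb hab
    have hs' : ‖s • z‖ < R := hs
    have ht' : ‖t • z‖ < R := ht
    show ‖(a • s + b • t) • z‖ < R
    have h1 : (a • s + b • t) • z = a • (s • z) + b • (t • z) := by
      rw [add_smul, smul_assoc, smul_assoc]
    rw [h1]
    have := convex_ball (0 : Fin n → ℂ) R (mem_ball_zero_iff.2 hs') (mem_ball_zero_iff.2 ht')
      ha hb hab
    exact mem_ball_zero_iff.1 this
  have hhol : ∀ φ : (Fin n → ℂ) → ℂ, DifferentiableOn ℂ φ (ball 0 R) →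
      AnalyticOnNhd ℝ (fun t : ℝ => φ (t • z)) I := by
    intro φ hφ t ht
    have h1 : AnalyticOnNhd ℂ (fun s : ℂ => φ (s • z)) V := by
      refine DifferentiableOn.analyticOnNhd ?_ hVo
      intro s hs
      have hs' : s • z ∈ ball (0 : Fin n → ℂ) R := mem_ball_zero_iff.2 hs
      have h2 : DifferentiableAt ℂ φ (s • z) := (hφ _ hs').differentiableAt
        (isOpen_ball.mem_nhds hs')
      have h3 : DifferentiableAt ℂ (fun s : ℂ => s • z) s := by fun_prop
      exact (h2.comp s h3).differentiableWithinAt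
    have ht2 : (t : ℂ) ∈ V := by
      show ‖(t : ℂ) • z‖ < R
      have ht' : ‖t • z‖ < R := ht
      rw [norm_smul] at ht' ⊢
      rwa [Complex.norm_real]
    have h4 : AnalyticAt ℝ (fun s : ℂ => φ (s • z)) (t : ℂ) := (h1 _ ht2).restrictScalars
    have h5 : AnalyticAt ℝ (fun t : ℝ => (t : ℂ)) t := Complex.ofRealCLM.analyticAt t
    have h6 := h4.fun_comp_of_eq h5 rfl
    exact h6
  have hf : AnalyticOnNhd ℝ (fun t : ℝ => (p (t • z) : ℂ)) I := by
    intro t _
    have h1 : AnalyticAt ℝ p (t • z) := hp _ (mem_univ _)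
    have h2 : AnalyticAt ℝ (fun t : ℝ => t • z) t :=
      ((ContinuousLinearMap.id ℝ ℝ).smulRight z).analyticAt t
    have h3 : AnalyticAt ℝ (fun t : ℝ => p (t • z)) t := h1.fun_comp_of_eq h2 rfl
    exact (Complex.ofRealCLM.analyticAt _).fun_comp_of_eq h3 rfl
  have hg : AnalyticOnNhd ℝ (fun t : ℝ => ∑ j, A j (t • z) * star (C j (t • z))) I := by
    intro t ht
    refine Finset.analyticAt_fun_sum _ fun j _ => ?_
    have h1 := hhol (A j) (hA j) t ht
    have h2 := hhol (C j) (hC j) t ht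
    have h3 : AnalyticAt ℝ (fun t : ℝ => star (C j (t • z))) t :=
      (Complex.conjCLE.toContinuousLinearMap.analyticAt _).fun_comp_of_eq h2 rfl
    exact h1.mul h3
  have hev : (fun t : ℝ => (p (t • z) : ℂ)) =ᶠ[𝓝 0]
      fun t : ℝ => ∑ j, A j (t • z) * star (C j (t • z)) := by
    have : Tendsto (fun t : ℝ => t • z) (𝓝 0) (𝓝 0) := by
      have hc : Continuous fun t : ℝ => t • z := by fun_prop
      have := hc.tendsto 0
      simpa using this
    exact this.eventually h0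
  have h0I : (0 : ℝ) ∈ I := by
    show ‖(0 : ℝ) • z‖ < R
    simpa using hR
  have h1I : (1 : ℝ) ∈ I := by
    show ‖(1 : ℝ) • z‖ < R
    simpa using hz
  have := hf.eqOn_of_preconnected_of_eventuallyEq hg hIc.isPreconnected h0I hev h1I
  simpa using this

end Pool.Agent.V1172.HR
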