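import Pool.Agent.V1172.HR.Ident

/-!
Ranks of kernels `F : σ → τ → ℂ` through minors and factorisations.
-/

set_option autoImplicit false

open Set Filter Topology Metric

namespace Pool.Agent.V1172.HR

variable {σ τ : Type*}

/-- All minors of size `m` vanish. -/
def Mn (F : σ → τ → ℂ) (m : ℕ) : Prop :=
  ∀ (a : Fin m → σ) (b : Fin m → τ), (Matrix.of fun i j => F (a i) (b j)).det = 0

/-- Factorisation of length `d`. -/
def FR (F : σ → τ → ℂ) (d : ℕ) : Prop :=
  ∃ (α : Fin d → σ → ℂ) (β : Fin d → τ → ℂ), ∀ s t, F s t = ∑ l, α l s * β l t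

theorem not_Mn_zero (F : σ → τ → ℂ) : ¬ Mn F 0 := by
  intro h
  have := h Fin.elim0 Fin.elim0
  simp at this

theorem FR.mono {F : σ → τ → ℂ} {d e : ℕ} (h : FR F d) (hde : d ≤ e) : FR F e := by
  obtain ⟨α, β, hF⟩ := h
  refine ⟨fun l s => if hl : l.1 < d then α ⟨l.1, hl⟩ s else 0,
    fun l t => if hl : l.1 < d then β ⟨l.1, hl⟩ t else 0, fun s t => ?_⟩
  rw [hF]
  obtain ⟨c, rfl⟩ := Nat.exists_eq_add_of_le hde
  rw [Fin.sum_univ_add]
  simp

theorem FR.mn {F : σ → τ → ℂ} {d : ℕ} (h : FR F d) : Mn F (d + 1) := by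
  obtain ⟨α, β, hF⟩ := h
  intro a b
  let A : Matrix (Fin (d + 1)) (Fin d) ℂ := Matrix.of fun i l => α l (a i)
  let B : Matrix (Fin d) (Fin (d + 1)) ℂ := Matrix.of fun l j => β l (b j)
  have hAB : (Matrix.of fun i j => F (a i) (b j)) = A * B := by
    ext i j
    simp [A, B, Matrix.mul_apply, hF]
  by_contra hne
  have hu : IsUnit (Matrix.of fun i j => F (a i) (b j)) := by
    rw [Matrix.isUnit_iff_isUnit_det]
    exact isUnit_iff_ne_zero.2 hne
  have h1 := Matrix.rank_of_isUnit _ hu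
  rw [hAB] at h1
  have h2 := Matrix.rank_mul_le_left A B
  have h3 := Matrix.rank_le_width A
  rw [Fintype.card_fin] at h1
  omega

/-- The bordered minor identity. -/
theorem bordered (F : σ → τ → ℂ) {d : ℕ} (a : Fin d → σ) (b : Fin d → τ)
    (hdet : (Matrix.of fun i j => F (a i) (b j)).det ≠ 0) (h : Mn F (d + 1)) (s : σ) (t : τ) :
    F s t = ∑ j, F s (b j) * ∑ i, (Matrix.of fun i j => F (a i) (b j))⁻¹ j i * F (a i) t := by
  set M : Matrix (Fin d) (Fin d) ℂ := Matrix.of fun i j => F (a i) (b j) with hM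
  let B : Matrix (Fin d) (Fin 1) ℂ := Matrix.of fun i _ => F (a i) t
  let C : Matrix (Fin 1) (Fin d) ℂ := Matrix.of fun _ j => F s (b j)
  let D : Matrix (Fin 1) (Fin 1) ℂ := Matrix.of fun _ _ => F s t
  have hu : IsUnit M.det := isUnit_iff_ne_zero.2 hdet
  have : Invertible M := Matrix.invertibleOfIsUnitDet M hu
  have h1 := Matrix.det_fromBlocks₁₁ M B C D
  have h2 : (Matrix.fromBlocks M B C D).det = 0 := by
    have h3 := h (fun i => Sum.elim a (fun _ : Fin 1 => s) (finSumFinEquiv.symm i))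
      (fun j => Sum.elim b (fun _ : Fin 1 => t) (finSumFinEquiv.symm j))
    have h4 : (Matrix.of fun i j =>
        F (Sum.elim a (fun _ : Fin 1 => s) (finSumFinEquiv.symm i))
          (Sum.elim b (fun _ : Fin 1 => t) (finSumFinEquiv.symm j))) =
        (Matrix.fromBlocks M B C D).submatrix finSumFinEquiv.symm finSumFinEquiv.symm := by
      ext i j
      simp only [Matrix.of_apply, Matrix.submatrix_apply]
      rcases finSumFinEquiv.symm i with i' | i' <;> rcases finSumFinEquiv.symm j with j' | j' <;>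
        simp [M, B, C, D]
    rw [h4, Matrix.det_submatrix_equiv_self] at h3
    exact h3
  rw [h2] at h1
  have h5 : (D - C * ⅟M * B).det = 0 := by
    rcases mul_eq_zero.1 h1.symm with h | h
    · exact absurd h hdet
    · exact h
  rw [Matrix.det_fin_one, Matrix.sub_apply, sub_eq_zero, Matrix.invOf_eq_nonsing_inv] at h5
  have h6 : D 0 0 = F s t := rfl
  rw [h6, Matrix.mul_assoc, Matrix.mul_apply] at h5
  rw [h5]
  refine Finset.sum_congr rfl fun j _ => ?_
  rw [Matrix.mul_apply]
  rfl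

/-- A maximal nonvanishing minor. -/
theorem max_minor {F : σ → τ → ℂ} {N : ℕ} (h : Mn F (N + 1)) :
    ∃ d ≤ N, Mn F (d + 1) ∧ ∃ (a : Fin d → σ) (b : Fin d → τ),
      (Matrix.of fun i j => F (a i) (b j)).det ≠ 0 := by
  classical
  let d := Nat.findGreatest (fun d => ¬ Mn F d) N
  have hd : d ≤ N := Nat.findGreatest_le N
  have h1 : ¬ Mn F d := Nat.findGreatest_spec (P := fun d => ¬ Mn F d) (Nat.zero_le N)
    (not_Mn_zero F)
  have h2 : Mn F (d + 1) := by
    rcases Nat.lt_or_ge d N with h3 | h3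
    · have := Nat.findGreatest_is_greatest (P := fun d => ¬ Mn F d) (n := N) (k := d + 1)
        (Nat.lt_succ_self d) h3
      exact not_not.1 this
    · have : d = N := le_antisymm hd h3
      rw [this]; exact h
  refine ⟨d, hd, h2, ?_⟩
  unfold Mn at h1
  push Not at h1
  exact h1

theorem Mn.fr {F : σ → τ → ℂ} {N : ℕ} (h : Mn F (N + 1)) : FR F N := by
  obtain ⟨d, hd, h1, a, b, hdet⟩ := max_minor h
  refine FR.mono ⟨fun j s => F s (b j), fun j t =>
    ∑ i, (Matrix.of fun i j => F (a i) (b j))⁻¹ j i * F (a i) t, fun s t => ?_⟩ hd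
  exact bordered F a b hdet h1 s t

/-- Interpolation nodes for the span of finitely many functions. -/
theorem nodes {q : ℕ} (β : Fin q → τ → ℂ) : ∃ m ≤ q, ∃ (t : Fin m → τ) (γ : Fin m → τ → ℂ),
    ∀ (c : Fin q → ℂ) (x : τ), ∑ l, c l * β l x = ∑ j, (∑ l, c l * β l (t j)) * γ j x := by
  classical
  have h : Mn β (q + 1) := by
    apply FR.mn
    refine ⟨fun l i => if l = i then 1 else 0, β, fun i x => ?_⟩
    simp
  obtain ⟨d, hd, h1, a, b, hdet⟩ := max_minor h
  refine ⟨d, hd, b, fun j x => ∑ i, (Matrix.of fun i j => β (a i) (b j))⁻¹ j i * β (a i) x, ?_⟩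
  intro c x
  have h2 : ∀ l, β l x = ∑ j, β l (b j) *
      ∑ i, (Matrix.of fun i j => β (a i) (b j))⁻¹ j i * β (a i) x :=
    fun l => bordered β a b hdet h1 l x
  calc ∑ l, c l * β l x = ∑ l, c l * ∑ j, β l (b j) *
      ∑ i, (Matrix.of fun i j => β (a i) (b j))⁻¹ j i * β (a i) x := by
        refine Finset.sum_congr rfl fun l _ => ?_
        rw [← h2 l]
    _ = ∑ l, ∑ j, c l * β l (b j) *
      ∑ i, (Matrix.of fun i j => β (a i) (b j))⁻¹ j i * β (a i) x := by
        refine Finset.sum_congr rfl fun l _ => ?_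
        rw [Finset.mul_sum]
        refine Finset.sum_congr rfl fun j _ => ?_
        ring
    _ = _ := by
        rw [Finset.sum_comm]
        refine Finset.sum_congr rfl fun j _ => ?_
        rw [Finset.sum_mul]

/-- Nodes for linearly independent functions. -/
theorem nodes_indep {q : ℕ} (β : Fin q → τ → ℂ)
    (hβ : ∀ c : Fin q → ℂ, (∀ x, ∑ l, c l * β l x = 0) → c = 0) :
    ∃ t : Fin q → τ, (Matrix.of fun i l => β l (t i)).det ≠ 0 := by
  obtain ⟨m, hm, t, γ, h⟩ := nodes β
  have hinj : ∀ c : Fin q → ℂ, (∀ j, ∑ l, c l * β l (t j) = 0) → c = 0 := by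
    intro c hc
    apply hβ
    intro x
    rw [h]
    simp [hc]
  -- hence `m = q`
  let L : (Fin q → ℂ) →ₗ[ℂ] (Fin m → ℂ) :=
    { toFun := fun c j => ∑ l, c l * β l (t j)
      map_add' := by
        intro c c'
        ext j
        simp [add_mul, Finset.sum_add_distrib]
      map_smul' := by
        intro r c
        ext j
        simp [Finset.mul_sum, mul_assoc] }
  have hL : Function.Injective L := by
    rw [injective_iff_map_eq_zero]
    intro c hc
    apply hinj
    intro j
    exact congrFun hc j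
  have hcard := LinearMap.finrank_le_finrank_of_injective hL
  rw [Module.finrank_fin_fun, Module.finrank_fin_fun] at hcard
  have hmq : m = q := le_antisymm hm hcard
  subst hmq
  refine ⟨t, ?_⟩
  intro hdet
  obtain ⟨v, hv, hv2⟩ := Matrix.exists_mulVec_eq_zero_iff.2 hdet
  apply hv
  apply hinj
  intro j
  have := congrFun hv2 j
  simp only [Matrix.mulVec, dotProduct, Matrix.of_apply, Pi.zero_apply] at this
  rw [← this]
  refine Finset.sum_congr rfl fun l _ => ?_
  ring

/-- The two-variable lemma. -/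
theorem two_var {F : σ → ℂ → τ → ℂ} {R : ℝ} {k k' : ℕ} (hR : 0 < R)
    (h1 : ∀ x ∈ ball (0 : ℂ) R, Mn (fun s t => F s x t) (k + 1))
    (h2 : ∀ s, FR (fun (x : ball (0 : ℂ) R) t => F s x t) k')
    (h3 : ∀ s t, DifferentiableOn ℂ (fun x => F s x t) (ball 0 R)) :
    FR (fun (q : σ × ball (0 : ℂ) R) t => F q.1 q.2 t) (k * k') := by
  classical
  -- the maximal rank
  let G : σ × ball (0 : ℂ) R → τ → ℂ := fun q t => F q.1 q.2 t
  let P : ℕ → Prop := fun d => ∃ x ∈ ball (0 : ℂ) R, ¬ Mn (fun s t => F s x t) d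
  let r := Nat.findGreatest P k
  have hr : r ≤ k := Nat.findGreatest_le k
  have hP0 : P 0 := ⟨0, mem_ball_self hR, not_Mn_zero _⟩
  have hPr : P r := Nat.findGreatest_spec (Nat.zero_le k) hP0
  have hr1 : ∀ x ∈ ball (0 : ℂ) R, Mn (fun s t => F s x t) (r + 1) := by
    rcases Nat.lt_or_ge r k with h4 | h4
    · have := Nat.findGreatest_is_greatest (P := P) (n := k) (k := r + 1)
        (Nat.lt_succ_self r) h4
      intro x hx
      by_contra hcon
      exact this ⟨x, hx, hcon⟩
    · have : r = k := le_antisymm hr h4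
      rw [this]; exact h1
  obtain ⟨x0, hx0, hnM⟩ := hPr
  unfold Mn at hnM
  push Not at hnM
  obtain ⟨a, b, hdet⟩ := hnM
  -- near `x0` the determinant does not vanish
  have hcont : ContinuousOn (fun x => (Matrix.of fun i j => F (a i) x (b j)).det) (ball 0 R) := by
    have hc : ∀ s t, ContinuousOn (fun x => F s x t) (ball 0 R) := fun s t => (h3 s t).continuousOn
    simp only [Matrix.det_apply]
    refine continuousOn_finsetSum _ fun π _ => ?_
    refine ContinuousOn.const_smul ?_ _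
    refine continuousOn_finsetProd _ fun i _ => ?_
    exact hc _ _
  have hev : ∀ᶠ x in 𝓝 x0, x ∈ ball (0 : ℂ) R ∧
      (Matrix.of fun i j => F (a i) x (b j)).det ≠ 0 := by
    have hnb : ball (0 : ℂ) R ∈ 𝓝 x0 := isOpen_ball.mem_nhds hx0
    have := (hcont.continuousAt hnb).eventually_ne hdet
    exact (eventually_of_mem hnb fun x hx => hx).and this
  choose α β hαβ using h2
  -- the functions `β (a i) l`
  let e : Fin (r * k') ≃ Fin r × Fin k' := finProdFinEquiv.symm
  let B : Fin (r * k') → τ → ℂ := fun q => β (a (e q).1) (e q).2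
  obtain ⟨m, hm, tt, γ, hγ⟩ := nodes B
  have hspan : ∀ x ∈ ball (0 : ℂ) R, (Matrix.of fun i j => F (a i) x (b j)).det ≠ 0 →
      ∀ s t, F s x t = ∑ j, F s x (tt j) * γ j t := by
    intro x hx hdx s t
    have hcomb : ∃ c : Fin (r * k') → ℂ, ∀ t, F s x t = ∑ q, c q * B q t := by
      refine ⟨fun q => (∑ j, F s x (b j) * (Matrix.of fun i j => F (a i) x (b j))⁻¹ j (e q).1) *
        α (a (e q).1) (e q).2 ⟨x, hx⟩, fun t => ?_⟩
      have h5 : F s x t = ∑ j, F s x (b j) *
          ∑ i, (Matrix.of fun i j => F (a i) x (b j))⁻¹ j i * F (a i) x t :=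
        bordered (fun s t => F s x t) a b hdx (hr1 x hx) s t
      rw [h5]
      have h6 : ∀ i, F (a i) x t = ∑ l, α (a i) l ⟨x, hx⟩ * β (a i) l t :=
        fun i => hαβ (a i) ⟨x, hx⟩ t
      rw [← e.symm.sum_comp]
      simp only [B, Equiv.apply_symm_apply]
      rw [Fintype.sum_prod_type]
      simp only [Finset.mul_sum]
      rw [Finset.sum_comm]
      refine Finset.sum_congr rfl fun i _ => ?_
      simp only [h6 i, Finset.mul_sum, Finset.sum_mul]
      rw [Finset.sum_comm]
      refine Finset.sum_congr rfl fun l _ => ?_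
      refine Finset.sum_congr rfl fun j _ => ?_
      ring
    obtain ⟨c, hc⟩ := hcomb
    rw [hc t, hγ c t]
    refine Finset.sum_congr rfl fun j _ => ?_
    rw [hc]
  -- the identity theorem
  have hall : ∀ x ∈ ball (0 : ℂ) R, ∀ s t, F s x t = ∑ j, F s x (tt j) * γ j t := by
    intro x hx s t
    refine convex_identity isOpen_ball (convex_ball (0 : ℂ) R) (fun x => F s x t)
      (fun x => ∑ j, F s x (tt j) * γ j t) (h3 s t) ?_ hx0 ?_ x hx
    · have hd : ∀ t, DifferentiableOn ℂ (fun x => F s x t) (ball 0 R) := h3 s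
      refine DifferentiableOn.fun_sum fun j _ => ?_
      exact (hd (tt j)).mul_const _
    · filter_upwards [hev] with x hx
      exact hspan x hx.1 hx.2 s t
  have hfr : FR (fun (q : σ × ball (0 : ℂ) R) t => F q.1 q.2 t) m :=
    ⟨fun j q => F q.1 q.2 (tt j), γ, fun q t => hall q.2 q.2.2 q.1 t⟩
  refine hfr.mono (hm.trans ?_)
  exact Nat.mul_le_mul_right _ hr

end Pool.Agent.V1172.HR
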